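import Pool.Agent.SPH.E8.Pos
import Pool.Agent.SPH.A4.Ok
import Pool.Agent.SPH.RG.Emb

/-!
# Project SPH: the embedding of the germ of type A4 into the one of type E8
-/

set_option linter.all false

namespace Pool.Agent.SPH.E8

/-- the data -/
def jd : RG.JD where
  jl := [
    ([], [0, 1, 2, 3, 4, 5, 6, 7]), ([7, 49], [1, 2, 3, 4, 5, 46]),
    ([0, 48], [4, 5, 7, 25, 26, 49]), ([23, 33], [0, 3, 5, 7, 25, 55]),
    ([6, 38], [0, 2, 3, 4, 7, 41]), ([3, 59], [0, 4, 5, 6, 33, 34]),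
    ([2, 66], [3, 5, 6, 33, 38, 59]), ([32, 46], [2, 3, 4, 6, 38, 66]),
    ([4, 18], [2, 5, 6, 7, 41, 46]), ([9, 26], [4, 6, 7, 18, 46, 49]),
    ([5, 25], [0, 1, 3, 6, 7, 42]), ([0, 3, 7, 55], [4, 5, 25, 26]),
    ([3, 23, 33, 59], [0, 5, 25, 48]), ([3, 6, 38, 59], [0, 4, 18, 33]),
    ([2, 7, 23, 41], [3, 5, 25, 59]), ([2, 6, 38, 66], [3, 23, 33, 59]),
    ([6, 7, 46, 49], [2, 3, 4, 66]), ([4, 7, 18, 49], [2, 5, 25, 46]),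
    ([0, 4, 18, 33], [5, 7, 25, 49]), ([4, 6, 18, 38], [2, 7, 23, 41]),
    ([2, 3, 4, 66], [5, 6, 33, 38]), ([4, 18, 32, 46], [2, 6, 38, 66]),
    ([7, 9, 26, 49], [4, 18, 32, 46]), ([0, 6, 9, 34], [4, 7, 18, 49]),
    ([1, 3, 26, 46], [4, 6, 18, 38]), ([5, 7, 25, 49], [1, 3, 26, 46]),
    ([0, 5, 25, 48], [7, 9, 26, 49]), ([5, 6, 33, 38], [0, 3, 7, 55]),
    ([3, 5, 25, 59], [0, 6, 9, 34]), ([2, 5, 25, 46], [3, 6, 38, 59]),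
    ([4, 5, 25, 26], [6, 7, 46, 49]), ([0, 2, 3, 4, 7, 41], [5, 25]),
    ([2, 3, 4, 6, 38, 66], [23, 33]), ([4, 6, 7, 18, 46, 49], [2, 66]),
    ([0, 1, 3, 6, 7, 42], [4, 18]), ([0, 3, 5, 7, 25, 55], [9, 26]),
    ([3, 5, 6, 33, 38, 59], [0, 48]), ([2, 5, 6, 7, 41, 46], [3, 59]),
    ([4, 5, 7, 25, 26, 49], [32, 46]), ([0, 4, 5, 6, 33, 34], [7, 49]),
    ([1, 2, 3, 4, 5, 46], [6, 38]), ([0, 1, 2, 3, 4, 5, 6, 7], [])]
  k := 5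
  r := 3

set_option maxRecDepth 10000

theorem jd_ok : jd.Ok rd A4.ad where
  c0 := by decide +kernel
  cI := by decide +kernel
  cA := by decide +kernel

theorem jd_rk : (allB 42 fun i => Nat.beq (jd.j1 i).length (2 * A4.td.rk i)) = true := by
  decide +kernel

end Pool.Agent.SPH.E8
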