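import Pool.Agent.SPH.E8.Pos
import Pool.Agent.SPH.RG.Gcl

/-!
# Project SPH, root germs: the generation certificate of type E8
-/

set_option linter.all false

namespace Pool.Agent.SPH.E8

/-- the data -/
def gd : RG.GD where
  nm := [
    ([0], [1, 2, 3, 4, 5, 6, 7]), ([1], [0, 2, 3, 4, 5, 6, 7]), ([2], [1, 3, 4, 5, 6, 7, 46]),
    ([3], [0, 4, 5, 6, 7, 41, 42]), ([4], [0, 1, 2, 5, 6, 7, 35]), ([5], [0, 1, 2, 3, 6, 7, 28]),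
    ([6], [0, 1, 2, 3, 4, 7, 21]), ([7], [0, 1, 2, 3, 4, 5, 14]), ([1, 3, 4, 5, 6, 7, 46], [0]),
    ([0, 2, 4, 5, 6, 7, 41], [1]), ([0, 1, 4, 5, 6, 7, 42], [2]), ([0, 1, 2, 5, 6, 7, 35], [3]),
    ([0, 1, 2, 3, 6, 7, 28], [4]), ([0, 1, 2, 3, 4, 7, 21], [5]), ([0, 1, 2, 3, 4, 5, 14], [6]),
    ([0, 1, 2, 3, 4, 5, 6], [7]), ([0, 1, 2, 3, 4, 5, 6, 7], []), ([2, 3, 6, 33], [4, 7, 17, 46]),
    ([4, 7, 17, 46], [0, 5, 26, 49]), ([0, 5, 26, 49], [2, 3, 6, 33]),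
    ([], [0, 1, 2, 3, 4, 5, 6, 7]), ([0, 4, 5, 6, 33, 34], [7, 49]),
    ([2, 5, 6, 7, 41, 46], [3, 59]), ([0, 1, 3, 6, 7, 42], [4, 18]),
    ([0, 2, 3, 4, 7, 41], [5, 25]), ([1, 2, 3, 4, 5, 46], [6, 38]),
    ([4, 5, 25, 26], [6, 7, 46, 49]), ([5, 6, 33, 38], [0, 3, 7, 55]),
    ([3, 6, 38, 59], [0, 4, 18, 33]), ([0, 6, 9, 34], [4, 7, 18, 49]),
    ([0, 4, 18, 33], [5, 7, 25, 49]), ([0, 5, 25, 48], [7, 9, 26, 49]),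
    ([0, 3, 7, 55], [4, 5, 25, 26]), ([4, 18], [2, 5, 6, 7, 41, 46]),
    ([7, 49], [1, 2, 3, 4, 5, 46]), ([6, 38], [0, 2, 3, 4, 7, 41]),
    ([3, 59], [0, 4, 5, 6, 33, 34]), ([0, 4, 5, 6, 7, 41, 42], [49]),
    ([4, 5, 7, 25, 26], [14, 46, 49]), ([2, 3, 6, 7, 41], [4, 17, 46]),
    ([5, 6, 7, 41, 46], [0, 3, 55]), ([0, 4, 7, 18, 41], [5, 25, 49]),
    ([0, 5, 7, 25, 55], [9, 26, 49]), ([49], [1, 2, 3, 4, 5, 6, 46]),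
    ([0, 5, 26], [2, 3, 6, 7, 41]), ([4, 17, 46], [0, 5, 6, 34, 49]),
    ([2, 3, 25], [4, 6, 7, 17, 46]), ([0, 4, 5, 25, 26], [6, 7, 49]),
    ([2, 5, 14, 41, 46], [3, 6, 59]), ([0, 5, 6, 34], [2, 3, 7, 41]),
    ([5, 25, 30], [0, 3, 6, 7, 55]), ([3, 30, 59], [0, 4, 6, 18, 33]),
    ([0, 9, 26], [4, 6, 7, 18, 49]), ([6, 7], [0, 1, 2, 3, 4, 21]), ([0, 5, 6, 7, 42], [2, 3, 41]),
    ([6, 10, 33], [4, 7, 17, 46, 49]), ([0, 3, 5, 26, 55], [6, 10, 33]),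
    ([0, 1, 5, 6, 7, 42], [2, 3]), ([59], [0, 4, 5, 6, 33, 34, 49]),
    ([2, 4, 5, 14, 41, 46], [6, 53]), ([30], [0, 2, 3, 4, 6, 7, 41]),
    ([5, 26], [2, 3, 6, 7, 41, 46]), ([2, 25], [1, 3, 4, 6, 7, 46]),
    ([0, 18], [2, 3, 5, 6, 7, 41]), ([0, 3, 18, 55], [5, 6, 10, 33]),
    ([14, 46], [0, 2, 3, 4, 6, 41]), ([2, 5, 25], [1, 3, 6, 7, 46]),
    ([14, 49], [1, 2, 3, 4, 6, 46]), ([0, 1, 5, 14, 42], [2, 3, 6]),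
    ([0, 55], [4, 5, 6, 33, 34, 49]), ([0, 3, 55], [4, 5, 6, 33, 34]),
    ([9, 26], [4, 6, 7, 18, 46, 49]), ([5, 25], [0, 1, 3, 6, 7, 42]),
    ([0, 2, 3, 4, 41], [5, 6, 33]), ([0, 4, 18], [2, 5, 6, 7, 41]), ([23], [0, 2, 3, 5, 6, 7, 41]),
    ([3, 55], [4, 5, 6, 33, 34, 46]), ([6, 7, 41], [0, 1, 3, 4, 42]),
    ([4, 17], [0, 1, 5, 6, 7, 42]), ([0, 7, 55], [4, 5, 25, 26, 49]),
    ([0, 5, 7, 25, 26, 55], [39, 49]), ([5, 14, 41, 46], [0, 3, 6, 55]),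
    ([0, 5, 14, 42], [2, 3, 6, 41]), ([4, 7, 17], [0, 1, 5, 14, 42]),
    ([1, 3, 4], [0, 5, 6, 7, 42]), ([0, 4, 6, 18, 33], [7, 17, 49]),
    ([0, 2, 3, 4, 6, 33], [7, 17]), ([18], [2, 3, 5, 6, 7, 41, 46]), ([53], [0, 1, 2, 3, 4, 5, 6]),
    ([10], [2, 4, 5, 6, 7, 41, 46]), ([26], [2, 3, 4, 6, 7, 41, 46]),
    ([17], [0, 1, 3, 5, 6, 7, 42]), ([7, 41], [0, 1, 3, 4, 5, 42]), ([0, 5, 14, 49], [1, 2, 3, 6])]
  tr := [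
    (20, 7, 7), (21, 7, 37), (26, 7, 38), (17, 7, 39), (27, 7, 40), (30, 7, 41), (31, 7, 42),
    (7, 43, 34), (44, 43, 19), (7, 45, 18), (46, 45, 25), (46, 6, 17), (14, 6, 16), (47, 6, 21),
    (48, 6, 22), (44, 6, 49), (50, 6, 27), (51, 6, 28), (52, 6, 29), (46, 53, 39), (44, 53, 54),
    (44, 55, 21), (56, 55, 16), (3, 55, 17), (54, 43, 57), (3, 58, 36), (48, 58, 59), (25, 60, 14),
    (61, 60, 44), (19, 3, 56), (62, 3, 46), (35, 63, 49), (36, 63, 64), (38, 65, 37), (66, 65, 48),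
    (48, 36, 14), (40, 36, 8), (47, 67, 14), (44, 67, 68), (40, 69, 37), (3, 69, 70), (42, 71, 37),
    (0, 71, 52), (41, 72, 37), (73, 72, 14), (74, 72, 47), (75, 72, 50), (44, 76, 56),
    (77, 76, 39), (18, 44, 37), (78, 44, 47), (3, 79, 32), (50, 79, 80), (7, 81, 40), (2, 81, 48),
    (7, 82, 54), (83, 82, 37), (84, 82, 14), (51, 85, 16), (3, 85, 86), (70, 87, 64), (4, 87, 33),
    (59, 88, 14), (22, 88, 11), (64, 89, 73), (23, 89, 12), (57, 89, 10), (42, 90, 80),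
    (5, 90, 61), (62, 91, 66), (24, 91, 13), (86, 91, 15), (78, 1, 84), (20, 1, 1), (74, 92, 41),
    (6, 92, 77), (75, 93, 68), (83, 93, 9)]
  ga k := ent 8 0x706050403020100 k
  gb k := ent 8 0xf0e0d0c0b0a0908 k

/-- the steps -/
def gl : List Gen.Stp := [
  .F 16, .F 17, .F 18, .F 19, .F 20, .F 21, .F 22, .F 23, .F 24, .F 25, .F 26, .F 27, .F 28,
  .F 29, .F 30, .F 31, .F 32, .F 33, .F 34, .F 35, .F 36, .M 20 21 7, .M 20 26 7, .M 20 17 7,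
  .M 20 27 7, .M 20 30 7, .M 20 31 7, .C 7 44 43, .C 7 46 45, .C 46 14 6, .C 46 47 6, .C 46 48 6,
  .M 46 44 6, .C 46 50 6, .C 46 51 6, .C 46 52 6, .M 46 44 53, .C 44 56 55, .C 44 3 55,
  .M 7 54 43, .M 3 48 58, .C 25 61 60, .C 19 62 3, .M 35 36 63, .C 38 66 65, .M 48 40 36,
  .M 47 44 67, .M 40 3 69, .C 42 0 71, .C 41 73 72, .C 41 74 72, .C 41 75 72, .C 44 77 76,
  .C 18 78 44, .M 3 50 79, .C 7 2 81, .C 7 83 82, .C 7 84 82, .M 51 3 85, .C 70 4 87,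
  .M 59 22 88, .M 64 23 89, .M 64 57 89, .C 42 5 90, .M 62 24 91, .M 62 86 91, .M 78 20 1,
  .C 74 6 92, .M 75 83 93]

set_option maxRecDepth 10000

theorem gl_run : Gen.run gd.nN (fun x => x) (gd.le rd) gd.tm (gd.fx rd 3 5)
    0x4140016a02001fffff0000 0x182e54015dd7e00000ffff gl 0 (CD.ins 0 (gd.ga 7)) = true := by
  decide +kernel

theorem gl_fin : gd.fin rd 0x182e54015dd7e00000ffff = true := by decide +kernel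

end Pool.Agent.SPH.E8
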