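import Pool.Agent.SPH.E8.Ok2
import Pool.Agent.SPH.E8.Gcl
import Pool.Agent.SPH.E8.Emb
import Pool.Agent.SPH.RG.Asm
import Pool.Agent.SPH.A4.Fix
import Pool.Agent.SPH.Eps

/-!
# Project SPH: the automorphisms of the Artin group of type `E8`
-/

set_option maxRecDepth 10000

namespace Pool.Agent.SPH.E8

open Pool.Agent.Helper7.AG Pool.Agent.HT

/-- the Artin group of type `E8` -/
abbrev HA : Type := Artin CoxeterMatrix.E₈

set_option backward.isDefEq.respectTransparency false in
theorem cox_eq : ∀ a b : Fin 8, cox a b = CoxeterMatrix.E₈ a b := by decide +kernel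

set_option backward.isDefEq.respectTransparency false in
theorem M_bd : ∀ a b : Fin 8, a ≠ b → 2 ≤ CoxeterMatrix.E₈ a b ∧ CoxeterMatrix.E₈ a b ≤ 5 := by
  decide +kernel

set_option backward.isDefEq.respectTransparency false in
theorem brc_ok : ∀ a b : Fin 8, a ≠ b → CD.brc rd.d r6 (CoxeterMatrix.E₈ a b) a b = true ∨
    CD.brc rd.d r6 (CoxeterMatrix.E₈ b a) b a = true := by
  decide +kernel

theorem ck : rd.Ck CoxeterMatrix.E₈ cox (l0 ++ (l1 ++ (l2 ++ (l3 ++ (l4 ++ l5))))) a0 a6 r6 where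
  n_pos := by decide
  N_lt := by decide
  A0_eq := by decide +kernel
  cox_eq := cox_eq
  M_bd := M_bd
  run := run_ok
  AA := by decide +kernel
  RR := by decide +kernel
  DD := kD
  brc := brc_ok

/-- the three fixed elements of `τ ^ 3` -/
def xs : List (List ℕ × List ℕ) := [([4, 7, 17, 46], [0, 5, 26, 49]),
  ([0, 5, 26, 49], [2, 3, 6, 33]), ([2, 3, 6, 33], [4, 7, 17, 46])]

theorem kb : rd.blB 3 5 4 2 6 [4, 7, 17, 46] [0, 5, 26, 49] xs = true := by decide +kernel

theorem kt : (allB rd.N fun i => Nat.beq (rd.ucl (rd.orb 1 rd.m i)) 0) = true := by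
  decide +kernel

theorem km : (allB rd.m fun j => cond (Nat.beq j 0) true
    (cond (Nat.beq (itN rd.ta j 0) 0) false true)) = true := by
  decide +kernel

theorem kf : rd.fuB (List.range rd.n) [] = true := by decide +kernel

theorem k5 : rd.fxB 5 [7, 49] [1, 2, 3, 4, 5, 46] = true := by decide +kernel

theorem k5f : rd.fuB [7, 49] [1, 2, 3, 4, 5, 46] = true := by decide +kernel

theorem k5m : RG.RD.mvB rd 5 [7, 49] [1, 2, 3, 4, 5, 46] = true := by decide +kernel

/-- all the generators are conjugate -/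
theorem hconj (s t : Fin 8) : IsConj (PresentedGroup.of s : HA) (PresentedGroup.of t) := by
  have h02 : IsConj (PresentedGroup.of 0 : HA) (PresentedGroup.of 2) := RG.isConj_three rfl
  have h13 : IsConj (PresentedGroup.of 1 : HA) (PresentedGroup.of 3) := RG.isConj_three rfl
  have h23 : IsConj (PresentedGroup.of 2 : HA) (PresentedGroup.of 3) := RG.isConj_three rfl
  have h34 : IsConj (PresentedGroup.of 3 : HA) (PresentedGroup.of 4) := RG.isConj_three rfl
  have h45 : IsConj (PresentedGroup.of 4 : HA) (PresentedGroup.of 5) := RG.isConj_three rfl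
  have h56 : IsConj (PresentedGroup.of 5 : HA) (PresentedGroup.of 6) := RG.isConj_three rfl
  have h67 : IsConj (PresentedGroup.of 6 : HA) (PresentedGroup.of 7) := RG.isConj_three rfl
  have key : ∀ s : Fin 8, IsConj (PresentedGroup.of 3 : HA) (PresentedGroup.of s) := by
    intro s
    fin_cases s
    · exact (h02.trans h23).symm
    · exact h13.symm
    · exact h23.symm
    · exact IsConj.refl _
    · exact h34
    · exact h34.trans h45
    · exact (h34.trans h45).trans h56
    · exact ((h34.trans h45).trans h56).trans h67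
  exact (key s).symm.trans (key t)

theorem gen {M : CoxeterMatrix (Fin rd.n)} (hj : (rd.rsys rd_ok).L.HasJoin) [Lattice (Artin M)]
    (F : Frame (LG.germ hj) (Artin M))
    (hg : ∀ k : Fin rd.n, F.g (RG.RD.el hj [(k : ℕ)]) = PresentedGroup.of k) (u : Artin M) :
    u ∈ F.Cn 3 ⊔ F.Cn 5 ∨
      u * (PresentedGroup.of (⟨7, by decide⟩ : Fin rd.n))⁻¹ ∈ F.Cn 3 ⊔ F.Cn 5 :=
  RG.GD.gen_two hj F hg (k0 := ⟨7, by decide⟩) gl_run gl_fin u

theorem main : AutDesc CoxeterMatrix.E₈ 15 := by
  obtain ⟨L, F, hg, hl, hd⟩ := RG.RD.exists_frame rd_ok pair_ok ck kf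
  let _ : Lattice HA := L
  have hj := RG.RD.hasJoin rd_ok pair_ok
  have h1 := RG.RD.tau_triv hj kt
  have hfix : ∀ φ : MulAut HA, φ F.δ = F.δ → ∃ x : HA, φ = MulAut.conj x := by
    intro φ hφ
    have hlen := F.len_fix hl hconj
    -- the centraliser of `δ ^ 5`
    obtain ⟨P0, hP0g, hP0l⟩ := AD.exists_pre A4.ad_ok
    obtain ⟨L0, F0, hg0, hl0⟩ := P0.exists_frame
    let _ : Lattice (Artin (CoxeterMatrix.A 4)) := L0
    let J := RG.JD.emb hj A4.ad_ok jd_ok
    obtain ⟨ρ, hρ⟩ := AD.exists_hom A4.ad_ok P0 hP0g (fun x => F.g (J.j x))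
      (by rw [J.bot, F.g_bot]) (by
        intro x y hxy
        rw [← J.q hxy]
        exact F.g_mul (J.mono hxy))
    have hρ' : ∀ x, ρ (F0.g x) = F.g (J.j x) := by
      intro x
      rw [hg0]
      exact hρ x
    have hr : ρ.range = F.Cn 5 := J.range_eq F0 F hρ' (fun x => RG.JD.emb_fx hj A4.ad_ok jd_ok x)
      (fun s hs h1 => RG.JD.emb_ex hj A4.ad_ok jd_ok hs h1)
    have hrk : ∀ x, (LG.germ hj).rk (J.j x) = 2 * (AD.EE A4.ad_ok).rk x := by
      intro x
      have h2 := allB_spec jd_rk x.i x.lt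
      have h3 : (LG.germ hj).rk (J.j x) = (jd.j1 x.i).length :=
        RG.RD.rk_el hj (RG.RD.fu_ex (RG.JD.jj_fu A4.ad_ok jd_ok x)).1
      rw [h3]
      exact Nat.eq_of_beq_eq_true h2
    have b5 : F.Fx 5 := Frame.Fx_of_emb F0 J hρ' hr hrk (by norm_num) hlen (fun ψ hψ hl =>
      A4.fix F0 (by
        intro k x hx
        rw [hg0]
        exact hP0g k x hx) (by
        intro k
        rw [hl0]
        exact hP0l k) ψ hψ hl)
    have f5 : F.Ff 5 := F.Ff_of_moved (by norm_num) (x := RG.RD.el hj [7, 49])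
      (RG.RD.fx_el hj k5) (RG.RD.moved_el rd_ok hj k5f k5m)
    have b3 := RG.RD.blk_of hj kb
    obtain ⟨j, hj'⟩ := F.two_blocks' h1 (F.Fx_of_blk b3) (F.Ff_of_blk b3) b5 f5 (by norm_num)
      rfl (gen hj F hg) hφ
    exact ⟨_, hj'⟩
  have h := final F M_bd hl h1 (RG.RD.exists_moved hj (w := 0) (by decide) km) hfix
  rw [hd] at h
  exact h

end Pool.Agent.SPH.E8

theorem Pool.Agent.SPH.desc_E8 : Pool.Agent.SPH.AutDesc CoxeterMatrix.E₈ 15 :=
  Pool.Agent.SPH.E8.main
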