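import Pool.Agent.SPH.E8.Tab

/-!
# Project SPH, root germs: the checks of the tables of type E8
-/

set_option maxRecDepth 10000

namespace Pool.Agent.SPH.E8

theorem ed : rd.edB = true := by decide +kernel

theorem kR : allB rd.N rd.chkR = true := by decide +kernel

theorem kI : allB rd.n rd.chkI = true := by decide +kernel

theorem kW : allB rd.N rd.chkW = true := by decide +kernel

theorem kZ : allB rd.N rd.chkZ = true := by decide +kernel

theorem kD : allB rd.N rd.chkD = true := by decide +kernel

end Pool.Agent.SPH.E8
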