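import Pool.Agent.SPH.E8.Pair
import Pool.Agent.SPH.E8.Cert

/-!
# Project SPH, root germs: the checks of the pairs and of the relations of type E8
-/

set_option maxRecDepth 10000

namespace Pool.Agent.SPH.E8

theorem q0 : rd.roB 0 p0 0 = true := by decide +kernel

theorem q1 : rd.roB 1 p1 0 = true := by decide +kernel

theorem q3 : rd.roB 3 p3 0 = true := by decide +kernel

theorem q8 : rd.roB 8 p8 0 = true := by decide +kernel

theorem q11 : rd.roB 11 p11 0 = true := by decide +kernel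

theorem q19 : rd.roB 19 p19 0 = true := by decide +kernel

theorem q22 : rd.roB 22 p22 0 = true := by decide +kernel

theorem q27 : rd.roB 27 p27 0 = true := by decide +kernel

theorem pair_ok : ∀ a ∈ rd.rp, ∃ l, rd.roB a l 0 = true := by
  intro a ha
  have h : a ∈ [0, 1, 3, 8, 11, 19, 22, 27] := ha
  simp only [List.mem_cons, List.not_mem_nil, or_false] at h
  rcases h with rfl | rfl | rfl | rfl | rfl | rfl | rfl | rfl
  · exact ⟨_, q0⟩
  · exact ⟨_, q1⟩
  · exact ⟨_, q3⟩
  · exact ⟨_, q8⟩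
  · exact ⟨_, q11⟩
  · exact ⟨_, q19⟩
  · exact ⟨_, q22⟩
  · exact ⟨_, q27⟩

theorem c0 : CD.run rd.d cox a0 a1 r1 l0 a0 r0 = true := by decide +kernel

theorem c1 : CD.run rd.d cox a0 a2 r2 l1 a1 r1 = true := by decide +kernel

theorem c2 : CD.run rd.d cox a0 a3 r3 l2 a2 r2 = true := by decide +kernel

theorem c3 : CD.run rd.d cox a0 a4 r4 l3 a3 r3 = true := by decide +kernel

theorem c4 : CD.run rd.d cox a0 a5 r5 l4 a4 r4 = true := by decide +kernel

theorem c5 : CD.run rd.d cox a0 a6 r6 l5 a5 r5 = true := by decide +kernel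

theorem run_ok : CD.run rd.d cox a0 a6 r6 (l0 ++ (l1 ++ (l2 ++ (l3 ++ (l4 ++ (l5)))))) a0 0 = true :=
  CD.run_append c0 (CD.run_append c1 (CD.run_append c2 (CD.run_append c3 (CD.run_append c4 (c5)))))

end Pool.Agent.SPH.E8
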