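import Pool.Agent.SPH.E8.Tab

/-!
# Project SPH, root germs: the pairs of atoms of type E8
-/

set_option linter.all false

namespace Pool.Agent.SPH.E8

/-- the pairs with the atom 0 -/
def p0 : List RG.PD := [
  ⟨[], [], []⟩, ⟨[0, 1], [2, 3, 4, 5, 6, 7], []⟩, ⟨[0, 2], [1, 3, 4, 5, 6, 7], []⟩,
  ⟨[0, 3], [4, 5, 6, 7, 41, 42], []⟩, ⟨[0, 4], [1, 2, 5, 6, 7, 35], []⟩,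
  ⟨[0, 5], [1, 2, 3, 6, 7, 28], []⟩, ⟨[0, 6], [1, 2, 3, 4, 7, 21], []⟩,
  ⟨[0, 7], [1, 2, 3, 4, 5, 14], []⟩, ⟨[0, 2], [1, 3, 4, 5, 6, 7], []⟩,
  ⟨[0, 9], [1, 4, 5, 6, 7, 42], []⟩, ⟨[0, 10], [2, 4, 5, 6, 7, 41], []⟩,
  ⟨[0, 11], [3, 5, 6, 7, 41, 42], []⟩, ⟨[0, 12], [1, 2, 4, 6, 7, 35], []⟩,
  ⟨[0, 13], [1, 2, 3, 5, 7, 28], []⟩, ⟨[0, 14], [1, 2, 3, 4, 6, 21], []⟩,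
  ⟨[0, 10], [2, 4, 5, 6, 7, 41], []⟩, ⟨[0, 16], [1, 2, 4, 5, 6, 7], []⟩,
  ⟨[0, 17], [1, 3, 5, 6, 7, 42], []⟩, ⟨[0, 18], [2, 3, 5, 6, 7, 41], []⟩,
  ⟨[0, 19], [3, 4, 6, 7, 41, 42], []⟩, ⟨[0, 20], [1, 2, 4, 5, 7, 35], []⟩,
  ⟨[0, 21], [1, 2, 3, 5, 6, 28], []⟩, ⟨[0, 16], [1, 2, 4, 5, 6, 7], []⟩,
  ⟨[0, 18], [2, 3, 5, 6, 7, 41], []⟩, ⟨[0, 24], [1, 2, 3, 5, 6, 7], []⟩,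
  ⟨[0, 25], [1, 3, 4, 6, 7, 42], []⟩, ⟨[0, 26], [2, 3, 4, 6, 7, 41], []⟩,
  ⟨[0, 27], [3, 4, 5, 7, 41, 42], []⟩, ⟨[0, 28], [1, 2, 4, 5, 6, 35], []⟩,
  ⟨[0, 24], [1, 2, 3, 5, 6, 7], []⟩, ⟨[0, 26], [2, 3, 4, 6, 7, 41], []⟩,
  ⟨[0, 31], [5, 6, 7, 9, 10, 49], []⟩, ⟨[0, 32], [1, 2, 3, 4, 6, 7], []⟩,
  ⟨[0, 33], [1, 3, 4, 5, 7, 42], []⟩, ⟨[0, 34], [2, 3, 4, 5, 7, 41], []⟩,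
  ⟨[0, 35], [3, 4, 5, 6, 41, 42], []⟩, ⟨[0, 31], [5, 6, 7, 9, 10, 49], []⟩,
  ⟨[0, 32], [1, 2, 3, 4, 6, 7], []⟩, ⟨[0, 34], [2, 3, 4, 5, 7, 41], []⟩,
  ⟨[0, 39], [4, 6, 7, 17, 18, 49], []⟩, ⟨[0, 40], [1, 2, 3, 4, 5, 7], []⟩,
  ⟨[0, 41], [1, 3, 4, 5, 6, 42], []⟩, ⟨[0, 42], [2, 3, 4, 5, 6, 41], []⟩,
  ⟨[0, 10, 24], [2, 5, 6, 7, 9], [10]⟩, ⟨[0, 39], [4, 6, 7, 17, 18, 49], []⟩,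
  ⟨[0, 40], [1, 2, 3, 4, 5, 7], []⟩, ⟨[0, 42], [2, 3, 4, 5, 6, 41], []⟩,
  ⟨[0, 47], [3, 6, 7, 17, 18, 55], []⟩, ⟨[0, 48], [4, 5, 7, 25, 26, 49], []⟩,
  ⟨[0, 49], [1, 2, 3, 4, 5, 6], []⟩, ⟨[0, 10, 32], [2, 4, 6, 7, 17], [10]⟩,
  ⟨[0, 47], [3, 6, 7, 17, 18, 55], []⟩, ⟨[0, 48], [4, 5, 7, 25, 26, 49], []⟩,
  ⟨[0, 49], [1, 2, 3, 4, 5, 6], []⟩, ⟨[0, 54], [3, 5, 7, 25, 26, 55], []⟩,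
  ⟨[0, 55], [4, 5, 6, 33, 34, 49], []⟩, ⟨[0, 18, 32], [2, 3, 6, 7, 17], [18]⟩,
  ⟨[0, 10, 40], [2, 4, 5, 7, 25], [10]⟩, ⟨[0, 54], [3, 5, 7, 25, 26, 55], []⟩,
  ⟨[0, 55], [4, 5, 6, 33, 34, 49], []⟩, ⟨[0, 60], [3, 4, 7, 25, 26, 61], []⟩,
  ⟨[0, 61], [3, 5, 6, 33, 34, 55], []⟩, ⟨[0, 18, 39], [6, 7, 10, 17, 49], [18]⟩,
  ⟨[0, 18, 40], [2, 3, 5, 7, 25], [18]⟩, ⟨[0, 10, 49], [2, 4, 5, 6, 33], [10]⟩,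
  ⟨[0, 60], [3, 4, 7, 25, 26, 61], []⟩, ⟨[0, 61], [3, 5, 6, 33, 34, 55], []⟩,
  ⟨[0, 67], [3, 4, 6, 33, 34, 61], []⟩, ⟨[0, 31, 32], [6, 7, 9, 10, 24], [31]⟩,
  ⟨[0, 18, 48], [5, 7, 10, 25, 49], [18]⟩, ⟨[0, 26, 40], [2, 3, 4, 7, 25], [26]⟩,
  ⟨[0, 18, 49], [2, 3, 5, 6, 33], [18]⟩, ⟨[0, 67], [3, 4, 6, 33, 34, 61], []⟩,
  ⟨[0, 73], [3, 4, 5, 33, 34, 67], []⟩, ⟨[0, 31, 40], [5, 7, 9, 10, 32], [31]⟩,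
  ⟨[0, 26, 48], [4, 7, 18, 25, 49], [26]⟩, ⟨[0, 18, 55], [5, 6, 10, 33, 49], [18]⟩,
  ⟨[0, 26, 49], [2, 3, 4, 6, 33], [26]⟩, ⟨[0, 73], [3, 4, 5, 33, 34, 67], []⟩,
  ⟨[0, 39, 40], [4, 7, 17, 18, 32], [39]⟩, ⟨[0, 31, 49], [5, 6, 9, 10, 40], [31]⟩,
  ⟨[0, 26, 54], [3, 7, 18, 25, 55], [26]⟩, ⟨[0, 26, 55], [4, 6, 18, 33, 49], [26]⟩,
  ⟨[0, 34, 49], [2, 3, 4, 5, 33], [34]⟩, ⟨[0, 40, 47], [3, 7, 17, 18, 39], [40]⟩,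
  ⟨[0, 39, 49], [4, 6, 17, 18, 40], [39]⟩, ⟨[0, 26, 61], [3, 6, 18, 33, 55], [26]⟩,
  ⟨[0, 34, 55], [4, 5, 26, 33, 49], [34]⟩, ⟨[0, 47, 48], [7, 17, 18, 39, 49], [47]⟩,
  ⟨[0, 47, 49], [3, 6, 17, 18, 48], [47]⟩, ⟨[0, 48, 49], [4, 5, 25, 26, 40], [48]⟩,
  ⟨[0, 34, 61], [3, 5, 26, 33, 55], [34]⟩, ⟨[0, 18, 39, 40], [7, 10, 17, 32], [18]⟩,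
  ⟨[0, 47, 55], [6, 17, 18, 48, 49], [47]⟩, ⟨[0, 49, 54], [3, 5, 25, 26, 48], [49]⟩,
  ⟨[0, 34, 67], [3, 4, 26, 33, 61], [34]⟩, ⟨[0, 18, 39, 40], [7, 10, 17, 32], [23]⟩,
  ⟨[0, 18, 39, 49], [6, 10, 17, 40], [18]⟩, ⟨[0, 54, 55], [5, 25, 26, 48, 49], [54]⟩,
  ⟨[0, 49, 60], [3, 4, 25, 26, 54], [49]⟩, ⟨[0, 18, 39, 49], [6, 10, 17, 40], [23]⟩,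
  ⟨[0, 18, 48, 49], [5, 10, 25, 40], [18]⟩, ⟨[0, 55, 60], [4, 25, 26, 49, 54], [55]⟩,
  ⟨[0, 18, 48, 49], [5, 10, 25, 40], [23]⟩, ⟨[0, 26, 48, 49], [4, 18, 25, 40], [26]⟩,
  ⟨[0, 60, 61], [3, 25, 26, 54, 55], [60]⟩, ⟨[0, 26, 48, 49], [4, 18, 25, 40], [30]⟩,
  ⟨[0, 26, 49, 54], [3, 18, 25, 48], [26]⟩, ⟨[0, 26, 49, 54], [3, 18, 25, 48], [30]⟩,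
  ⟨[0, 26, 54, 55], [18, 25, 48, 49], [26]⟩, ⟨[0, 26, 54, 55], [18, 25, 48, 49], [30]⟩,
  ⟨[0, 47, 48, 49], [17, 18, 39, 40], [47]⟩, ⟨[0, 47, 48, 49], [17, 18, 39, 40], [51]⟩,
  ⟨[0, 5, 26, 48, 49], [10, 25, 40], [18]⟩, ⟨[0, 7, 18, 39, 49], [10, 17, 32], [40]⟩,
  ⟨[0, 6, 18, 48, 49], [10, 17, 40], [39]⟩, ⟨[0, 18, 25, 48, 49], [17, 39, 40], [18]⟩,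
  ⟨[0, 17, 26, 48, 49], [18, 39, 40], [30]⟩, ⟨[0, 4, 26, 49, 54], [18, 25, 40], [48]⟩,
  ⟨[0, 3, 26, 54, 55], [18, 25, 48], [49]⟩]

/-- the pairs with the atom 1 -/
def p1 : List RG.PD := [
  ⟨[0, 1], [2, 3, 4, 5, 6, 7], []⟩, ⟨[], [], []⟩, ⟨[1, 2], [3, 4, 5, 6, 7, 46], []⟩,
  ⟨[1, 3], [0, 4, 5, 6, 7, 42], []⟩, ⟨[1, 4], [0, 2, 5, 6, 7, 35], []⟩,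
  ⟨[1, 5], [0, 2, 3, 6, 7, 28], []⟩, ⟨[1, 6], [0, 2, 3, 4, 7, 21], []⟩,
  ⟨[1, 7], [0, 2, 3, 4, 5, 14], []⟩, ⟨[1, 8], [0, 3, 4, 5, 6, 7], []⟩,
  ⟨[1, 3], [0, 4, 5, 6, 7, 42], []⟩, ⟨[1, 10], [2, 4, 5, 6, 7, 46], []⟩,
  ⟨[1, 11], [0, 3, 5, 6, 7, 42], []⟩, ⟨[1, 12], [0, 2, 4, 6, 7, 35], []⟩,
  ⟨[1, 13], [0, 2, 3, 5, 7, 28], []⟩, ⟨[1, 14], [0, 2, 3, 4, 6, 21], []⟩,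
  ⟨[1, 15], [0, 2, 4, 5, 6, 7], []⟩, ⟨[1, 10], [2, 4, 5, 6, 7, 46], []⟩,
  ⟨[1, 11], [0, 3, 5, 6, 7, 42], []⟩, ⟨[1, 18], [2, 3, 5, 6, 7, 46], []⟩,
  ⟨[1, 19], [0, 3, 4, 6, 7, 42], []⟩, ⟨[1, 20], [0, 2, 4, 5, 7, 35], []⟩,
  ⟨[1, 21], [0, 2, 3, 5, 6, 28], []⟩, ⟨[1, 15], [0, 2, 4, 5, 6, 7], []⟩,
  ⟨[1, 23], [0, 2, 3, 5, 6, 7], []⟩, ⟨[1, 18], [2, 3, 5, 6, 7, 46], []⟩,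
  ⟨[1, 19], [0, 3, 4, 6, 7, 42], []⟩, ⟨[1, 26], [2, 3, 4, 6, 7, 46], []⟩,
  ⟨[1, 27], [0, 3, 4, 5, 7, 42], []⟩, ⟨[1, 28], [0, 2, 4, 5, 6, 35], []⟩,
  ⟨[1, 23], [0, 2, 3, 5, 6, 7], []⟩, ⟨[1, 30], [0, 2, 3, 4, 6, 7], []⟩,
  ⟨[1, 3, 18], [5, 6, 7, 10, 46], [3]⟩, ⟨[1, 26], [2, 3, 4, 6, 7, 46], []⟩,
  ⟨[1, 27], [0, 3, 4, 5, 7, 42], []⟩, ⟨[1, 34], [2, 3, 4, 5, 7, 46], []⟩,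
  ⟨[1, 35], [0, 3, 4, 5, 6, 42], []⟩, ⟨[1, 3, 23], [0, 5, 6, 7, 10], [3]⟩,
  ⟨[1, 30], [0, 2, 3, 4, 6, 7], []⟩, ⟨[1, 38], [0, 2, 3, 4, 5, 7], []⟩,
  ⟨[1, 3, 26], [4, 6, 7, 18, 46], [3]⟩, ⟨[1, 34], [2, 3, 4, 5, 7, 46], []⟩,
  ⟨[1, 35], [0, 3, 4, 5, 6, 42], []⟩, ⟨[1, 42], [2, 3, 4, 5, 6, 46], []⟩,
  ⟨[1, 10, 23], [2, 5, 6, 7, 15], [10]⟩, ⟨[1, 3, 30], [0, 4, 6, 7, 18], [3]⟩,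
  ⟨[1, 38], [0, 2, 3, 4, 5, 7], []⟩, ⟨[1, 46], [0, 2, 3, 4, 5, 6], []⟩,
  ⟨[1, 11, 26], [3, 6, 7, 18, 46], [11]⟩, ⟨[1, 3, 34], [4, 5, 7, 26, 46], [3]⟩,
  ⟨[1, 42], [2, 3, 4, 5, 6, 46], []⟩, ⟨[1, 10, 30], [2, 4, 6, 7, 23], [10]⟩,
  ⟨[1, 11, 30], [0, 3, 6, 7, 18], [11]⟩, ⟨[1, 3, 38], [0, 4, 5, 7, 26], [3]⟩,
  ⟨[1, 46], [0, 2, 3, 4, 5, 6], []⟩, ⟨[1, 11, 34], [3, 5, 7, 26, 46], [11]⟩,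
  ⟨[1, 3, 42], [4, 5, 6, 34, 46], [3]⟩, ⟨[1, 18, 30], [2, 3, 6, 7, 23], [18]⟩,
  ⟨[1, 10, 38], [2, 4, 5, 7, 30], [10]⟩, ⟨[1, 11, 38], [0, 3, 5, 7, 26], [11]⟩,
  ⟨[1, 3, 46], [0, 4, 5, 6, 34], [3]⟩, ⟨[1, 19, 34], [3, 4, 7, 26, 46], [19]⟩,
  ⟨[1, 11, 42], [3, 5, 6, 34, 46], [11]⟩, ⟨[1, 3, 18, 30], [6, 7, 10, 23], [3]⟩,
  ⟨[1, 18, 38], [2, 3, 5, 7, 30], [18]⟩, ⟨[1, 10, 46], [2, 4, 5, 6, 38], [10]⟩,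
  ⟨[1, 19, 38], [0, 3, 4, 7, 26], [19]⟩, ⟨[1, 11, 46], [0, 3, 5, 6, 34], [11]⟩,
  ⟨[1, 19, 42], [3, 4, 6, 34, 46], [19]⟩, ⟨[1, 3, 18, 30], [6, 7, 10, 23], [9]⟩,
  ⟨[1, 3, 18, 38], [5, 7, 10, 30], [3]⟩, ⟨[1, 26, 38], [2, 3, 4, 7, 30], [26]⟩,
  ⟨[1, 18, 46], [2, 3, 5, 6, 38], [18]⟩, ⟨[1, 19, 46], [0, 3, 4, 6, 34], [19]⟩,
  ⟨[1, 27, 42], [3, 4, 5, 34, 46], [27]⟩, ⟨[1, 3, 18, 38], [5, 7, 10, 30], [9]⟩,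
  ⟨[1, 3, 26, 38], [4, 7, 18, 30], [3]⟩, ⟨[1, 3, 18, 46], [5, 6, 10, 38], [3]⟩,
  ⟨[1, 26, 46], [2, 3, 4, 6, 38], [26]⟩, ⟨[1, 27, 46], [0, 3, 4, 5, 34], [27]⟩,
  ⟨[1, 3, 26, 38], [4, 7, 18, 30], [9]⟩, ⟨[1, 3, 18, 46], [5, 6, 10, 38], [9]⟩,
  ⟨[1, 11, 26, 38], [3, 7, 18, 30], [11]⟩, ⟨[1, 3, 26, 46], [4, 6, 18, 38], [3]⟩,
  ⟨[1, 34, 46], [2, 3, 4, 5, 38], [34]⟩, ⟨[1, 11, 26, 38], [3, 7, 18, 30], [17]⟩,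
  ⟨[1, 3, 26, 46], [4, 6, 18, 38], [9]⟩, ⟨[1, 11, 26, 46], [3, 6, 18, 38], [11]⟩,
  ⟨[1, 3, 34, 46], [4, 5, 26, 38], [3]⟩, ⟨[1, 3, 4, 26, 38], [7, 18, 30], [3]⟩,
  ⟨[1, 11, 26, 46], [3, 6, 18, 38], [17]⟩, ⟨[1, 3, 34, 46], [4, 5, 26, 38], [9]⟩,
  ⟨[1, 11, 34, 46], [3, 5, 26, 38], [11]⟩, ⟨[1, 3, 5, 26, 38], [7, 10, 30], [18]⟩,
  ⟨[1, 3, 4, 26, 46], [6, 18, 38], [3]⟩, ⟨[1, 11, 34, 46], [3, 5, 26, 38], [17]⟩,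
  ⟨[1, 19, 34, 46], [3, 4, 26, 38], [19]⟩, ⟨[1, 3, 6, 18, 38], [7, 10, 23], [30]⟩,
  ⟨[1, 3, 5, 26, 46], [6, 10, 38], [18]⟩, ⟨[1, 3, 4, 34, 46], [5, 26, 38], [3]⟩,
  ⟨[1, 19, 34, 46], [3, 4, 26, 38], [25]⟩, ⟨[1, 3, 14, 18, 46], [6, 10, 23], [30]⟩,
  ⟨[1, 3, 13, 34, 46], [5, 10, 38], [18]⟩, ⟨[1, 3, 12, 34, 46], [4, 26, 38], [3]⟩,
  ⟨[1, 3, 7, 18, 46], [5, 10, 30], [38]⟩, ⟨[1, 3, 6, 34, 46], [4, 18, 38], [26]⟩,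
  ⟨[1, 5, 19, 34, 46], [3, 26, 38], [11]⟩, ⟨[1, 3, 7, 26, 46], [4, 18, 30], [38]⟩,
  ⟨[1, 6, 11, 34, 46], [3, 18, 38], [26]⟩, ⟨[1, 7, 11, 26, 46], [3, 18, 30], [38]⟩,
  ⟨[1, 3, 4, 6, 34, 46], [18, 38], [3]⟩, ⟨[1, 3, 4, 7, 26, 46], [18, 30], [3]⟩,
  ⟨[1, 3, 4, 6, 34, 46], [18, 38], [17]⟩, ⟨[1, 3, 4, 7, 26, 46], [18, 30], [17]⟩,
  ⟨[1, 3, 5, 7, 26, 46], [10, 30], [18]⟩, ⟨[1, 3, 5, 7, 26, 46], [10, 30], [32]⟩,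
  ⟨[1, 3, 5, 7, 26, 46], [10, 30], [3, 31]⟩, ⟨[1, 2, 3, 4, 5, 7, 46], [30], [17]⟩,
  ⟨[1, 3, 4, 7, 26, 46], [18, 30], [3, 39]⟩, ⟨[0, 1, 3, 4, 6, 7, 42], [18], [38]⟩,
  ⟨[1, 3, 4, 6, 34, 46], [18, 38], [3, 47]⟩]

/-- the pairs with the atom 3 -/
def p3 : List RG.PD := [
  ⟨[0, 3], [4, 5, 6, 7, 41, 42], []⟩, ⟨[1, 3], [0, 4, 5, 6, 7, 42], []⟩,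
  ⟨[2, 3], [4, 5, 6, 7, 41, 46], []⟩, ⟨[], [], []⟩, ⟨[3, 4], [0, 5, 6, 7, 41, 42], []⟩,
  ⟨[3, 5], [0, 6, 7, 9, 10, 28], []⟩, ⟨[3, 6], [0, 4, 7, 17, 18, 21], []⟩,
  ⟨[3, 7], [0, 4, 5, 14, 41, 42], []⟩, ⟨[3, 15], [0, 4, 5, 6, 7, 41], []⟩,
  ⟨[1, 3], [0, 4, 5, 6, 7, 42], []⟩, ⟨[2, 3], [4, 5, 6, 7, 41, 46], []⟩,
  ⟨[3, 4], [0, 5, 6, 7, 41, 42], []⟩, ⟨[3, 12], [0, 4, 6, 7, 41, 42], []⟩,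
  ⟨[3, 13], [0, 5, 7, 9, 10, 28], []⟩, ⟨[3, 14], [0, 4, 6, 17, 18, 21], []⟩,
  ⟨[3, 15], [0, 4, 5, 6, 7, 41], []⟩, ⟨[1, 2, 3], [4, 5, 6, 7, 46], [1]⟩,
  ⟨[3, 17], [0, 5, 6, 7, 9, 42], []⟩, ⟨[3, 18], [5, 6, 7, 10, 41, 46], []⟩,
  ⟨[3, 12], [0, 4, 6, 7, 41, 42], []⟩, ⟨[3, 20], [0, 4, 5, 7, 41, 42], []⟩,
  ⟨[3, 21], [0, 5, 6, 9, 10, 28], []⟩, ⟨[1, 3, 15], [0, 4, 5, 6, 7], [1]⟩,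
  ⟨[3, 23], [0, 5, 6, 7, 10, 41], []⟩, ⟨[3, 31], [5, 6, 7, 9, 10, 46], []⟩,
  ⟨[3, 25], [0, 4, 6, 7, 17, 42], []⟩, ⟨[3, 26], [4, 6, 7, 18, 41, 46], []⟩,
  ⟨[3, 20], [0, 4, 5, 7, 41, 42], []⟩, ⟨[3, 28], [0, 4, 5, 6, 41, 42], []⟩,
  ⟨[3, 36], [0, 5, 6, 7, 9, 10], []⟩, ⟨[3, 30], [0, 4, 6, 7, 18, 41], []⟩,
  ⟨[3, 31], [5, 6, 7, 9, 10, 46], []⟩, ⟨[3, 39], [4, 6, 7, 17, 18, 46], []⟩,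
  ⟨[3, 33], [0, 4, 5, 7, 25, 42], []⟩, ⟨[3, 34], [4, 5, 7, 26, 41, 46], []⟩,
  ⟨[3, 28], [0, 4, 5, 6, 41, 42], []⟩, ⟨[3, 36], [0, 5, 6, 7, 9, 10], []⟩,
  ⟨[3, 44], [0, 4, 6, 7, 17, 18], []⟩, ⟨[3, 38], [0, 4, 5, 7, 26, 41], []⟩,
  ⟨[3, 39], [4, 6, 7, 17, 18, 46], []⟩, ⟨[3, 48], [4, 5, 7, 25, 26, 46], []⟩,
  ⟨[3, 41], [0, 4, 5, 6, 33, 42], []⟩, ⟨[3, 42], [4, 5, 6, 34, 41, 46], []⟩,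
  ⟨[2, 3, 36], [5, 6, 7, 9, 15], [2]⟩, ⟨[3, 44], [0, 4, 6, 7, 17, 18], []⟩,
  ⟨[3, 52], [0, 4, 5, 7, 25, 26], []⟩, ⟨[3, 46], [0, 4, 5, 6, 34, 41], []⟩,
  ⟨[3, 47], [6, 7, 17, 18, 46, 55], []⟩, ⟨[3, 48], [4, 5, 7, 25, 26, 46], []⟩,
  ⟨[3, 55], [4, 5, 6, 33, 34, 46], []⟩, ⟨[2, 3, 44], [4, 6, 7, 17, 23], [2]⟩,
  ⟨[3, 51], [0, 6, 7, 17, 18, 55], []⟩, ⟨[3, 52], [0, 4, 5, 7, 25, 26], []⟩,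
  ⟨[3, 59], [0, 4, 5, 6, 33, 34], []⟩, ⟨[3, 54], [5, 7, 25, 26, 46, 55], []⟩,
  ⟨[3, 55], [4, 5, 6, 33, 34, 46], []⟩, ⟨[3, 62], [6, 7, 10, 17, 23, 59], []⟩,
  ⟨[2, 3, 52], [4, 5, 7, 25, 30], [2]⟩, ⟨[3, 58], [0, 5, 7, 25, 26, 55], []⟩,
  ⟨[3, 59], [0, 4, 5, 6, 33, 34], []⟩, ⟨[3, 60], [4, 7, 25, 26, 46, 61], []⟩,
  ⟨[3, 61], [5, 6, 33, 34, 46, 55], []⟩, ⟨[3, 62], [6, 7, 10, 17, 23, 59], []⟩,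
  ⟨[3, 69], [5, 7, 10, 25, 30, 59], []⟩, ⟨[2, 3, 59], [4, 5, 6, 33, 38], [2]⟩,
  ⟨[3, 65], [0, 4, 7, 25, 26, 61], []⟩, ⟨[3, 66], [0, 5, 6, 33, 34, 55], []⟩,
  ⟨[3, 67], [4, 6, 33, 34, 46, 61], []⟩, ⟨[3, 31, 44], [6, 7, 9, 10, 23], [24]⟩,
  ⟨[3, 69], [5, 7, 10, 25, 30, 59], []⟩, ⟨[3, 75], [4, 7, 18, 25, 30, 66], []⟩,
  ⟨[3, 76], [5, 6, 10, 33, 38, 59], []⟩, ⟨[3, 72], [0, 4, 6, 33, 34, 61], []⟩,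
  ⟨[3, 73], [4, 5, 33, 34, 46, 67], []⟩, ⟨[3, 31, 52], [5, 7, 9, 10, 30], [24]⟩,
  ⟨[3, 75], [4, 7, 18, 25, 30, 66], []⟩, ⟨[3, 76], [5, 6, 10, 33, 38, 59], []⟩,
  ⟨[3, 82], [4, 6, 18, 33, 38, 66], []⟩, ⟨[3, 78], [0, 4, 5, 33, 34, 67], []⟩,
  ⟨[3, 39, 52], [4, 7, 17, 18, 30], [32]⟩, ⟨[3, 31, 59], [5, 6, 9, 10, 38], [24]⟩,
  ⟨[3, 81], [7, 18, 25, 30, 55, 66], []⟩, ⟨[3, 82], [4, 6, 18, 33, 38, 66], []⟩,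
  ⟨[3, 87], [4, 5, 26, 33, 38, 72], []⟩, ⟨[3, 88], [7, 17, 18, 30, 39, 76], []⟩,
  ⟨[3, 39, 59], [4, 6, 17, 18, 38], [32]⟩, ⟨[3, 86], [6, 18, 33, 38, 55, 66], []⟩,
  ⟨[3, 87], [4, 5, 26, 33, 38, 72], []⟩, ⟨[3, 88], [7, 17, 18, 30, 39, 76], []⟩,
  ⟨[3, 93], [6, 17, 18, 38, 48, 76], []⟩, ⟨[3, 48, 59], [4, 5, 25, 26, 38], [40]⟩,
  ⟨[3, 91], [5, 26, 33, 38, 55, 72], []⟩, ⟨[3, 39, 69], [7, 10, 17, 30, 59], [32]⟩,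
  ⟨[3, 93], [6, 17, 18, 38, 48, 76], []⟩, ⟨[3, 98], [5, 25, 26, 38, 48, 82], []⟩,
  ⟨[3, 95], [4, 26, 33, 38, 61, 72], []⟩, ⟨[3, 52, 62], [7, 10, 17, 23, 44], [45]⟩,
  ⟨[3, 39, 76], [6, 10, 17, 38, 59], [32]⟩, ⟨[3, 98], [5, 25, 26, 38, 48, 82], []⟩,
  ⟨[3, 102], [4, 25, 26, 38, 54, 86], []⟩, ⟨[3, 59, 62], [6, 10, 17, 23, 52], [53]⟩,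
  ⟨[3, 48, 76], [5, 10, 25, 38, 59], [40]⟩, ⟨[3, 102], [4, 25, 26, 38, 54, 86], []⟩,
  ⟨[3, 59, 69], [5, 10, 25, 30, 52], [53]⟩, ⟨[3, 48, 82], [4, 18, 25, 38, 66], [40]⟩,
  ⟨[3, 105], [25, 26, 38, 54, 55, 86], []⟩, ⟨[3, 59, 75], [4, 18, 25, 30, 58], [53]⟩,
  ⟨[3, 109], [18, 25, 38, 48, 66, 82], []⟩, ⟨[3, 110], [18, 25, 30, 48, 58, 93], []⟩,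
  ⟨[3, 109], [18, 25, 38, 48, 66, 82], []⟩, ⟨[3, 110], [18, 25, 30, 48, 58, 93], []⟩,
  ⟨[3, 48, 93], [17, 18, 38, 75, 76], [40]⟩, ⟨[3, 59, 88], [17, 18, 30, 39, 69], [53]⟩,
  ⟨[3, 75, 76], [10, 25, 30, 58, 59], [70]⟩, ⟨[3, 39, 59, 69], [10, 17, 30, 52], [32]⟩,
  ⟨[3, 39, 59, 69], [10, 17, 30, 52], [39]⟩, ⟨[3, 76, 88], [17, 30, 39, 59, 69], [71]⟩,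
  ⟨[3, 75, 93], [18, 30, 39, 58, 76], [70]⟩, ⟨[3, 48, 110], [18, 25, 58, 75, 93], [40]⟩,
  ⟨[3, 82, 98], [18, 25, 38, 48, 110], [77]⟩]

/-- the pairs with the atom 8 -/
def p8 : List RG.PD := [
  ⟨[0, 2], [1, 3, 4, 5, 6, 7], []⟩, ⟨[1, 8], [0, 3, 4, 5, 6, 7], []⟩,
  ⟨[0, 2], [1, 3, 4, 5, 6, 7], []⟩, ⟨[3, 15], [0, 4, 5, 6, 7, 41], []⟩,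
  ⟨[4, 8], [0, 1, 5, 6, 7, 35], []⟩, ⟨[5, 8], [0, 1, 3, 6, 7, 28], []⟩,
  ⟨[6, 8], [0, 1, 3, 4, 7, 21], []⟩, ⟨[7, 8], [0, 1, 3, 4, 5, 14], []⟩, ⟨[], [], []⟩,
  ⟨[8, 9], [0, 1, 4, 5, 6, 7], []⟩, ⟨[0, 2, 3], [4, 5, 6, 7, 41], [0]⟩,
  ⟨[8, 11], [0, 3, 5, 6, 7, 41], []⟩, ⟨[8, 12], [0, 1, 4, 6, 7, 35], []⟩,
  ⟨[8, 13], [0, 1, 3, 5, 7, 28], []⟩, ⟨[8, 14], [0, 1, 3, 4, 6, 21], []⟩,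
  ⟨[3, 15], [0, 4, 5, 6, 7, 41], []⟩, ⟨[0, 2, 9], [1, 4, 5, 6, 7], [0]⟩,
  ⟨[8, 17], [0, 1, 3, 5, 6, 7], []⟩, ⟨[0, 2, 11], [3, 5, 6, 7, 41], [0]⟩,
  ⟨[8, 19], [0, 3, 4, 6, 7, 41], []⟩, ⟨[8, 20], [0, 1, 4, 5, 7, 35], []⟩,
  ⟨[8, 21], [0, 1, 3, 5, 6, 28], []⟩, ⟨[8, 9], [0, 1, 4, 5, 6, 7], []⟩,
  ⟨[8, 11], [0, 3, 5, 6, 7, 41], []⟩, ⟨[0, 2, 17], [1, 3, 5, 6, 7], [0]⟩,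
  ⟨[8, 25], [0, 1, 3, 4, 6, 7], []⟩, ⟨[0, 2, 19], [3, 4, 6, 7, 41], [0]⟩,
  ⟨[8, 27], [0, 3, 4, 5, 7, 41], []⟩, ⟨[8, 28], [0, 1, 4, 5, 6, 35], []⟩,
  ⟨[8, 17], [0, 1, 3, 5, 6, 7], []⟩, ⟨[8, 19], [0, 3, 4, 6, 7, 41], []⟩,
  ⟨[0, 2, 3, 17], [5, 6, 7, 9], [0]⟩, ⟨[0, 2, 25], [1, 3, 4, 6, 7], [0]⟩,
  ⟨[8, 33], [0, 1, 3, 4, 5, 7], []⟩, ⟨[0, 2, 27], [3, 4, 5, 7, 41], [0]⟩,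
  ⟨[8, 35], [0, 3, 4, 5, 6, 41], []⟩, ⟨[3, 15, 17], [0, 5, 6, 7, 9], [3]⟩,
  ⟨[8, 25], [0, 1, 3, 4, 6, 7], []⟩, ⟨[8, 27], [0, 3, 4, 5, 7, 41], []⟩,
  ⟨[0, 2, 3, 25], [4, 6, 7, 17], [0]⟩, ⟨[0, 2, 33], [1, 3, 4, 5, 7], [0]⟩,
  ⟨[8, 41], [0, 1, 3, 4, 5, 6], []⟩, ⟨[0, 2, 35], [3, 4, 5, 6, 41], [0]⟩,
  ⟨[0, 2, 3, 17], [5, 6, 7, 9], [2]⟩, ⟨[3, 15, 25], [0, 4, 6, 7, 17], [3]⟩,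
  ⟨[8, 33], [0, 1, 3, 4, 5, 7], []⟩, ⟨[8, 35], [0, 3, 4, 5, 6, 41], []⟩,
  ⟨[0, 2, 11, 25], [3, 6, 7, 17], [0]⟩, ⟨[0, 2, 3, 33], [4, 5, 7, 25], [0]⟩,
  ⟨[0, 2, 41], [1, 3, 4, 5, 6], [0]⟩, ⟨[0, 2, 3, 25], [4, 6, 7, 17], [2]⟩,
  ⟨[8, 11, 25], [0, 3, 6, 7, 17], [11]⟩, ⟨[3, 15, 33], [0, 4, 5, 7, 25], [3]⟩,
  ⟨[8, 41], [0, 1, 3, 4, 5, 6], []⟩, ⟨[0, 2, 11, 33], [3, 5, 7, 25], [0]⟩,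
  ⟨[0, 2, 3, 41], [4, 5, 6, 33], [0]⟩, ⟨[0, 2, 11, 25], [3, 6, 7, 17], [2]⟩,
  ⟨[0, 2, 3, 33], [4, 5, 7, 25], [2]⟩, ⟨[8, 11, 33], [0, 3, 5, 7, 25], [11]⟩,
  ⟨[3, 15, 41], [0, 4, 5, 6, 33], [3]⟩, ⟨[0, 2, 19, 33], [3, 4, 7, 25], [0]⟩,
  ⟨[0, 2, 11, 41], [3, 5, 6, 33], [0]⟩, ⟨[0, 2, 3, 4, 25], [6, 7, 17], [3]⟩,
  ⟨[0, 2, 11, 33], [3, 5, 7, 25], [2]⟩, ⟨[0, 2, 3, 41], [4, 5, 6, 33], [2]⟩,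
  ⟨[8, 19, 33], [0, 3, 4, 7, 25], [19]⟩, ⟨[8, 11, 41], [0, 3, 5, 6, 33], [11]⟩,
  ⟨[0, 2, 19, 41], [3, 4, 6, 33], [0]⟩, ⟨[0, 2, 3, 5, 25], [6, 7, 9], [17]⟩,
  ⟨[0, 2, 3, 4, 33], [5, 7, 25], [3]⟩, ⟨[0, 2, 19, 33], [3, 4, 7, 25], [2]⟩,
  ⟨[0, 2, 11, 41], [3, 5, 6, 33], [2]⟩, ⟨[8, 19, 41], [0, 3, 4, 6, 33], [19]⟩,
  ⟨[0, 2, 27, 41], [3, 4, 5, 33], [0]⟩, ⟨[0, 2, 3, 13, 33], [5, 7, 9], [17]⟩,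
  ⟨[0, 2, 3, 12, 33], [4, 7, 25], [3]⟩, ⟨[0, 2, 3, 4, 41], [5, 6, 33], [3]⟩,
  ⟨[0, 2, 19, 41], [3, 4, 6, 33], [2]⟩, ⟨[8, 27, 41], [0, 3, 4, 5, 33], [27]⟩,
  ⟨[0, 2, 3, 6, 33], [4, 7, 17], [25]⟩, ⟨[0, 2, 3, 17, 21], [5, 6, 9], [17]⟩,
  ⟨[0, 2, 5, 19, 33], [3, 7, 25], [11]⟩, ⟨[0, 2, 3, 12, 41], [4, 6, 33], [3]⟩,
  ⟨[0, 2, 27, 41], [3, 4, 5, 33], [2]⟩, ⟨[0, 2, 6, 11, 33], [3, 7, 17], [25]⟩,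
  ⟨[0, 2, 3, 14, 41], [4, 6, 17], [25]⟩, ⟨[0, 2, 5, 19, 41], [3, 6, 33], [11]⟩,
  ⟨[0, 2, 3, 20, 41], [4, 5, 33], [3]⟩, ⟨[0, 2, 3, 4, 6, 33], [7, 17], [3]⟩,
  ⟨[0, 2, 11, 14, 41], [3, 6, 17], [25]⟩, ⟨[0, 2, 3, 7, 41], [4, 5, 25], [33]⟩,
  ⟨[0, 2, 11, 13, 41], [3, 5, 33], [11]⟩, ⟨[0, 2, 3, 4, 6, 33], [7, 17], [0, 10]⟩,
  ⟨[0, 2, 3, 4, 14, 41], [6, 17], [3]⟩, ⟨[0, 2, 7, 11, 41], [3, 5, 25], [33]⟩,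
  ⟨[0, 2, 6, 27, 41], [3, 4, 33], [19]⟩, ⟨[0, 2, 3, 4, 6, 33], [7, 17], [23]⟩,
  ⟨[0, 2, 3, 4, 14, 41], [6, 17], [0, 10]⟩, ⟨[0, 2, 3, 4, 7, 41], [5, 25], [3]⟩,
  ⟨[0, 2, 7, 19, 41], [3, 4, 25], [33]⟩, ⟨[0, 2, 3, 4, 14, 41], [6, 17], [23]⟩,
  ⟨[0, 2, 3, 4, 7, 41], [5, 25], [0, 10]⟩, ⟨[0, 2, 3, 7, 12, 41], [4, 25], [3]⟩,
  ⟨[0, 2, 3, 4, 7, 41], [5, 25], [23]⟩, ⟨[0, 2, 3, 7, 12, 41], [4, 25], [0, 10]⟩,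
  ⟨[0, 2, 5, 7, 19, 41], [3, 25], [11]⟩, ⟨[0, 2, 3, 7, 12, 41], [4, 25], [30]⟩,
  ⟨[0, 2, 5, 7, 19, 41], [3, 25], [0, 18]⟩, ⟨[0, 2, 5, 7, 19, 41], [3, 25], [30]⟩,
  ⟨[0, 2, 3, 4, 5, 7, 41], [25], [3]⟩, ⟨[0, 2, 3, 4, 5, 7, 41], [25], [3]⟩,
  ⟨[0, 2, 3, 4, 6, 7, 41], [17], [25]⟩, ⟨[0, 2, 3, 4, 6, 7, 41], [17], [25]⟩,
  ⟨[0, 2, 3, 4, 5, 7, 41], [25], [30]⟩, ⟨[0, 2, 3, 4, 6, 7, 41], [17], [53]⟩,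
  ⟨[0, 2, 3, 4, 6, 7, 41], [17], [0, 10]⟩, ⟨[0, 2, 3, 4, 6, 7, 41], [17], [0, 18]⟩,
  ⟨[0, 1, 2, 3, 4, 5, 6, 7], [], [25]⟩, ⟨[0, 2, 3, 4, 5, 7, 41], [25], [0, 18]⟩,
  ⟨[0, 2, 3, 4, 5, 7, 41], [25], [0, 18]⟩]

/-- the pairs with the atom 11 -/
def p11 : List RG.PD := [
  ⟨[0, 11], [3, 5, 6, 7, 41, 42], []⟩, ⟨[1, 11], [0, 3, 5, 6, 7, 42], []⟩,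
  ⟨[2, 11], [3, 5, 6, 7, 41, 46], []⟩, ⟨[3, 4], [0, 5, 6, 7, 41, 42], []⟩,
  ⟨[3, 4], [0, 5, 6, 7, 41, 42], []⟩, ⟨[5, 19], [0, 3, 6, 7, 41, 42], []⟩,
  ⟨[6, 11], [0, 3, 7, 17, 18, 21], []⟩, ⟨[7, 11], [0, 3, 5, 14, 41, 42], []⟩,
  ⟨[8, 11], [0, 3, 5, 6, 7, 41], []⟩, ⟨[1, 3, 4], [0, 5, 6, 7, 42], [1]⟩,
  ⟨[2, 3, 4], [5, 6, 7, 41, 46], [2]⟩, ⟨[], [], []⟩, ⟨[3, 4, 5], [0, 6, 7, 41, 42], [3]⟩,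
  ⟨[11, 13], [0, 3, 5, 7, 41, 42], []⟩, ⟨[11, 14], [0, 3, 6, 17, 18, 21], []⟩,
  ⟨[3, 4, 23], [0, 5, 6, 7, 41], [3]⟩, ⟨[1, 2, 3, 4], [5, 6, 7, 46], [1]⟩,
  ⟨[1, 11], [0, 3, 5, 6, 7, 42], []⟩, ⟨[2, 11], [3, 5, 6, 7, 41, 46], []⟩,
  ⟨[5, 19], [0, 3, 6, 7, 41, 42], []⟩, ⟨[3, 4, 13], [0, 5, 7, 41, 42], [3]⟩,
  ⟨[11, 21], [0, 3, 5, 6, 41, 42], []⟩, ⟨[1, 3, 4, 23], [0, 5, 6, 7], [1]⟩,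
  ⟨[8, 11], [0, 3, 5, 6, 7, 41], []⟩, ⟨[1, 2, 11], [3, 5, 6, 7, 46], [1]⟩,
  ⟨[11, 25], [0, 3, 6, 7, 17, 42], []⟩, ⟨[11, 26], [3, 6, 7, 18, 41, 46], []⟩,
  ⟨[11, 13], [0, 3, 5, 7, 41, 42], []⟩, ⟨[3, 4, 21], [0, 5, 6, 41, 42], [3]⟩,
  ⟨[1, 8, 11], [0, 3, 5, 6, 7], [1]⟩, ⟨[11, 30], [0, 3, 6, 7, 18, 41], []⟩,
  ⟨[1, 2, 3, 4], [5, 6, 7, 46], [3]⟩, ⟨[11, 47], [3, 6, 7, 17, 18, 46], []⟩,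
  ⟨[11, 33], [0, 3, 5, 7, 25, 42], []⟩, ⟨[11, 34], [3, 5, 7, 26, 41, 46], []⟩,
  ⟨[11, 21], [0, 3, 5, 6, 41, 42], []⟩, ⟨[1, 3, 4, 23], [0, 5, 6, 7], [3]⟩,
  ⟨[11, 51], [0, 3, 6, 7, 17, 18], []⟩, ⟨[11, 38], [0, 3, 5, 7, 26, 41], []⟩,
  ⟨[3, 4, 47], [6, 7, 17, 18, 46], [3]⟩, ⟨[11, 54], [3, 5, 7, 25, 26, 46], []⟩,
  ⟨[11, 41], [0, 3, 5, 6, 33, 42], []⟩, ⟨[11, 42], [3, 5, 6, 34, 41, 46], []⟩,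
  ⟨[0, 1, 2, 3, 4], [5, 6, 7], [2]⟩, ⟨[3, 4, 51], [0, 6, 7, 17, 18], [3]⟩,
  ⟨[11, 58], [0, 3, 5, 7, 25, 26], []⟩, ⟨[11, 46], [0, 3, 5, 6, 34, 41], []⟩,
  ⟨[11, 47], [3, 6, 7, 17, 18, 46], []⟩, ⟨[3, 4, 54], [5, 7, 25, 26, 46], [3]⟩,
  ⟨[11, 61], [3, 5, 6, 33, 34, 46], []⟩, ⟨[2, 3, 4, 51], [6, 7, 17, 23], [2]⟩,
  ⟨[11, 51], [0, 3, 6, 7, 17, 18], []⟩, ⟨[3, 4, 58], [0, 5, 7, 25, 26], [3]⟩,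
  ⟨[11, 66], [0, 3, 5, 6, 33, 34], []⟩, ⟨[11, 54], [3, 5, 7, 25, 26, 46], []⟩,
  ⟨[3, 4, 61], [5, 6, 33, 34, 46], [3]⟩, ⟨[2, 11, 51], [3, 6, 7, 17, 23], [2]⟩,
  ⟨[2, 3, 4, 58], [5, 7, 25, 30], [2]⟩, ⟨[11, 58], [0, 3, 5, 7, 25, 26], []⟩,
  ⟨[3, 4, 66], [0, 5, 6, 33, 34], [3]⟩, ⟨[11, 60], [3, 7, 25, 26, 46, 61], []⟩,
  ⟨[11, 61], [3, 5, 6, 33, 34, 46], []⟩, ⟨[2, 3, 4, 51], [6, 7, 17, 23], [3]⟩,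
  ⟨[2, 11, 58], [3, 5, 7, 25, 30], [2]⟩, ⟨[2, 3, 4, 66], [5, 6, 33, 38], [2]⟩,
  ⟨[11, 65], [0, 3, 7, 25, 26, 61], []⟩, ⟨[11, 66], [0, 3, 5, 6, 33, 34], []⟩,
  ⟨[11, 67], [3, 6, 33, 34, 46, 61], []⟩, ⟨[1, 2, 3, 4, 30], [6, 7, 23], [17]⟩,
  ⟨[2, 3, 4, 58], [5, 7, 25, 30], [3]⟩, ⟨[11, 81], [3, 7, 18, 25, 30, 66], []⟩,
  ⟨[2, 11, 66], [3, 5, 6, 33, 38], [2]⟩, ⟨[11, 72], [0, 3, 6, 33, 34, 61], []⟩,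
  ⟨[11, 73], [3, 5, 33, 34, 46, 67], []⟩, ⟨[1, 2, 3, 4, 38], [5, 7, 30], [17]⟩,
  ⟨[3, 4, 81], [7, 18, 25, 30, 66], [3]⟩, ⟨[2, 3, 4, 66], [5, 6, 33, 38], [3]⟩,
  ⟨[11, 86], [3, 6, 18, 33, 38, 66], []⟩, ⟨[11, 78], [0, 3, 5, 33, 34, 67], []⟩,
  ⟨[3, 4, 47, 58], [7, 17, 18, 30], [4]⟩, ⟨[1, 2, 3, 4, 46], [5, 6, 38], [17]⟩,
  ⟨[11, 81], [3, 7, 18, 25, 30, 66], []⟩, ⟨[3, 4, 86], [6, 18, 33, 38, 66], [3]⟩,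
  ⟨[11, 91], [3, 5, 26, 33, 38, 72], []⟩, ⟨[11, 47, 58], [3, 7, 17, 18, 30], [32]⟩,
  ⟨[3, 4, 47, 66], [6, 17, 18, 38], [4]⟩, ⟨[11, 86], [3, 6, 18, 33, 38, 66], []⟩,
  ⟨[3, 4, 91], [5, 26, 33, 38, 72], [3]⟩, ⟨[3, 4, 47, 58], [7, 17, 18, 30], [3]⟩,
  ⟨[11, 47, 66], [3, 6, 17, 18, 38], [32]⟩, ⟨[3, 4, 54, 66], [5, 25, 26, 38], [4]⟩,
  ⟨[11, 91], [3, 5, 26, 33, 38, 72], []⟩, ⟨[2, 3, 4, 25, 58], [7, 17, 30], [18]⟩,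
  ⟨[3, 4, 47, 66], [6, 17, 18, 38], [3]⟩, ⟨[11, 54, 66], [3, 5, 25, 26, 38], [40]⟩,
  ⟨[11, 95], [3, 26, 33, 38, 61, 72], []⟩, ⟨[2, 3, 4, 6, 58], [7, 17, 23], [45]⟩,
  ⟨[2, 3, 4, 25, 66], [6, 17, 38], [18]⟩, ⟨[3, 4, 54, 66], [5, 25, 26, 38], [3]⟩,
  ⟨[11, 105], [3, 25, 26, 38, 54, 86], []⟩, ⟨[2, 3, 4, 14, 66], [6, 17, 23], [51]⟩,
  ⟨[2, 3, 4, 33, 66], [5, 25, 38], [18]⟩, ⟨[3, 4, 105], [25, 26, 38, 54, 86], [3]⟩,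
  ⟨[2, 3, 4, 7, 66], [5, 25, 30], [53]⟩, ⟨[3, 4, 54, 86], [18, 25, 38, 66], [4]⟩,
  ⟨[11, 105], [3, 25, 26, 38, 54, 86], []⟩, ⟨[3, 4, 66, 81], [18, 25, 30, 58], [4]⟩,
  ⟨[11, 54, 86], [3, 18, 25, 38, 66], [40]⟩, ⟨[11, 66, 81], [3, 18, 25, 30, 58], [53]⟩,
  ⟨[3, 4, 54, 86], [18, 25, 38, 66], [3]⟩, ⟨[3, 4, 66, 81], [18, 25, 30, 58], [3]⟩,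
  ⟨[3, 4, 6, 54, 66], [17, 18, 38], [40]⟩, ⟨[3, 4, 7, 47, 66], [17, 18, 30], [53]⟩,
  ⟨[2, 3, 4, 65, 66], [25, 30, 58], [18]⟩, ⟨[2, 3, 4, 7, 25, 66], [17, 30], [32]⟩,
  ⟨[2, 3, 4, 7, 25, 66], [17, 30], [2, 10]⟩, ⟨[2, 3, 4, 7, 25, 66], [17, 30], [18]⟩,
  ⟨[3, 4, 38, 66, 81], [18, 30, 58], [47]⟩, ⟨[3, 4, 30, 54, 66], [18, 25, 58], [40]⟩,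
  ⟨[3, 4, 26, 54, 86], [18, 25, 38], [66]⟩]

/-- the pairs with the atom 19 -/
def p19 : List RG.PD := [
  ⟨[0, 19], [3, 4, 6, 7, 41, 42], []⟩, ⟨[1, 19], [0, 3, 4, 6, 7, 42], []⟩,
  ⟨[2, 19], [3, 4, 6, 7, 41, 46], []⟩, ⟨[3, 12], [0, 4, 6, 7, 41, 42], []⟩,
  ⟨[4, 19], [0, 6, 7, 11, 41, 42], []⟩, ⟨[5, 19], [0, 3, 6, 7, 41, 42], []⟩,
  ⟨[6, 27], [0, 3, 4, 7, 41, 42], []⟩, ⟨[7, 19], [0, 3, 4, 14, 41, 42], []⟩,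
  ⟨[8, 19], [0, 3, 4, 6, 7, 41], []⟩, ⟨[1, 3, 12], [0, 4, 6, 7, 42], [1]⟩,
  ⟨[2, 3, 12], [4, 6, 7, 41, 46], [2]⟩, ⟨[5, 19], [0, 3, 6, 7, 41, 42], []⟩,
  ⟨[3, 12], [0, 4, 6, 7, 41, 42], []⟩, ⟨[5, 6, 27], [0, 3, 7, 41, 42], [5]⟩,
  ⟨[14, 35], [0, 3, 4, 6, 41, 42], []⟩, ⟨[3, 12, 30], [0, 4, 6, 7, 41], [3]⟩,
  ⟨[1, 2, 3, 12], [4, 6, 7, 46], [1]⟩, ⟨[1, 5, 19], [0, 3, 6, 7, 42], [1]⟩,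
  ⟨[2, 5, 19], [3, 6, 7, 41, 46], [2]⟩, ⟨[], [], []⟩, ⟨[3, 6, 20], [0, 4, 7, 41, 42], [3]⟩,
  ⟨[5, 14, 35], [0, 3, 6, 41, 42], [5]⟩, ⟨[1, 3, 12, 30], [0, 4, 6, 7], [1]⟩,
  ⟨[5, 8, 19], [0, 3, 6, 7, 41], [5]⟩, ⟨[1, 2, 5, 19], [3, 6, 7, 46], [1]⟩,
  ⟨[1, 19], [0, 3, 4, 6, 7, 42], []⟩, ⟨[2, 19], [3, 4, 6, 7, 41, 46], []⟩,
  ⟨[6, 27], [0, 3, 4, 7, 41, 42], []⟩, ⟨[3, 12, 14], [0, 4, 6, 41, 42], [3]⟩,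
  ⟨[1, 5, 8, 19], [0, 3, 6, 7], [1]⟩, ⟨[8, 19], [0, 3, 4, 6, 7, 41], []⟩,
  ⟨[1, 2, 3, 4, 5], [6, 7, 46], [3]⟩, ⟨[1, 2, 19], [3, 4, 6, 7, 46], [1]⟩,
  ⟨[19, 33], [0, 3, 4, 7, 25, 42], []⟩, ⟨[19, 34], [3, 4, 7, 26, 41, 46], []⟩,
  ⟨[14, 35], [0, 3, 4, 6, 41, 42], []⟩, ⟨[1, 3, 4, 5, 30], [0, 6, 7], [3]⟩,
  ⟨[1, 8, 19], [0, 3, 4, 6, 7], [1]⟩, ⟨[19, 38], [0, 3, 4, 7, 26, 41], []⟩,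
  ⟨[1, 2, 3, 12], [4, 6, 7, 46], [3]⟩, ⟨[19, 60], [3, 4, 7, 25, 26, 46], []⟩,
  ⟨[19, 41], [0, 3, 4, 6, 33, 42], []⟩, ⟨[19, 42], [3, 4, 6, 34, 41, 46], []⟩,
  ⟨[0, 1, 2, 3, 4, 5], [6, 7], [2]⟩, ⟨[1, 3, 12, 30], [0, 4, 6, 7], [3]⟩,
  ⟨[19, 65], [0, 3, 4, 7, 25, 26], []⟩, ⟨[19, 46], [0, 3, 4, 6, 34, 41], []⟩,
  ⟨[1, 2, 5, 19], [3, 6, 7, 46], [11]⟩, ⟨[3, 12, 60], [4, 7, 25, 26, 46], [3]⟩,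
  ⟨[19, 67], [3, 4, 6, 33, 34, 46], []⟩, ⟨[0, 1, 2, 3, 12], [4, 6, 7], [2]⟩,
  ⟨[1, 5, 8, 19], [0, 3, 6, 7], [11]⟩, ⟨[3, 12, 65], [0, 4, 7, 25, 26], [3]⟩,
  ⟨[19, 72], [0, 3, 4, 6, 33, 34], []⟩, ⟨[5, 19, 60], [3, 7, 25, 26, 46], [5]⟩,
  ⟨[3, 12, 67], [4, 6, 33, 34, 46], [3]⟩, ⟨[0, 1, 2, 5, 19], [3, 6, 7], [2]⟩,
  ⟨[2, 3, 12, 65], [4, 7, 25, 30], [2]⟩, ⟨[5, 19, 65], [0, 3, 7, 25, 26], [5]⟩,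
  ⟨[3, 12, 72], [0, 4, 6, 33, 34], [3]⟩, ⟨[19, 60], [3, 4, 7, 25, 26, 46], []⟩,
  ⟨[5, 19, 67], [3, 6, 33, 34, 46], [5]⟩, ⟨[0, 1, 2, 3, 4, 5], [6, 7], [3]⟩,
  ⟨[2, 5, 19, 65], [3, 7, 25, 30], [2]⟩, ⟨[2, 3, 12, 72], [4, 6, 33, 38], [2]⟩,
  ⟨[19, 65], [0, 3, 4, 7, 25, 26], []⟩, ⟨[5, 19, 72], [0, 3, 6, 33, 34], [5]⟩,
  ⟨[19, 67], [3, 4, 6, 33, 34, 46], []⟩, ⟨[0, 1, 2, 3, 4, 5], [6, 7], [0, 9]⟩,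
  ⟨[2, 3, 4, 5, 65], [7, 25, 30], [3]⟩, ⟨[2, 19, 65], [3, 4, 7, 25, 30], [2]⟩,
  ⟨[2, 5, 19, 72], [3, 6, 33, 38], [2]⟩, ⟨[19, 72], [0, 3, 4, 6, 33, 34], []⟩,
  ⟨[19, 73], [3, 4, 33, 34, 46, 67], []⟩, ⟨[1, 2, 3, 4, 5, 38], [7, 30], [5]⟩,
  ⟨[2, 3, 12, 65], [4, 7, 25, 30], [3]⟩, ⟨[2, 3, 4, 5, 72], [6, 33, 38], [3]⟩,
  ⟨[2, 19, 72], [3, 4, 6, 33, 38], [2]⟩, ⟨[19, 78], [0, 3, 4, 33, 34, 67], []⟩,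
  ⟨[1, 2, 3, 12, 38], [4, 7, 30], [25]⟩, ⟨[1, 2, 3, 4, 5, 46], [6, 38], [5]⟩,
  ⟨[2, 5, 19, 65], [3, 7, 25, 30], [11]⟩, ⟨[2, 3, 12, 72], [4, 6, 33, 38], [3]⟩,
  ⟨[19, 95], [3, 4, 26, 33, 38, 72], []⟩, ⟨[1, 2, 5, 19, 38], [3, 7, 30], [25]⟩,
  ⟨[1, 2, 3, 12, 46], [4, 6, 38], [25]⟩, ⟨[2, 5, 19, 72], [3, 6, 33, 38], [11]⟩,
  ⟨[3, 12, 95], [4, 26, 33, 38, 72], [3]⟩, ⟨[1, 2, 3, 4, 5, 38], [7, 30], [3]⟩,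
  ⟨[1, 2, 5, 19, 46], [3, 6, 38], [25]⟩, ⟨[3, 12, 60, 72], [4, 25, 26, 38], [12]⟩,
  ⟨[5, 19, 95], [3, 26, 33, 38, 72], [5]⟩, ⟨[1, 2, 3, 4, 5, 38], [7, 30], [1, 10]⟩,
  ⟨[1, 2, 3, 4, 5, 46], [6, 38], [3]⟩, ⟨[5, 19, 60, 72], [3, 25, 26, 38], [5]⟩,
  ⟨[19, 95], [3, 4, 26, 33, 38, 72], []⟩, ⟨[0, 1, 2, 3, 4, 5, 6], [7], [30]⟩,
  ⟨[1, 2, 3, 4, 5, 46], [6, 38], [1, 10]⟩, ⟨[3, 4, 5, 60, 72], [25, 26, 38], [3]⟩,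
  ⟨[19, 60, 72], [3, 4, 25, 26, 38], [40]⟩, ⟨[0, 1, 2, 3, 4, 5, 14], [6], [30]⟩,
  ⟨[2, 3, 4, 5, 33, 72], [25, 38], [5]⟩, ⟨[3, 12, 60, 72], [4, 25, 26, 38], [3]⟩,
  ⟨[2, 3, 4, 5, 7, 72], [25, 30], [5]⟩, ⟨[2, 3, 12, 33, 72], [4, 25, 38], [26]⟩,
  ⟨[5, 19, 60, 72], [3, 25, 26, 38], [11]⟩, ⟨[2, 3, 7, 12, 72], [4, 25, 30], [53]⟩,
  ⟨[2, 5, 19, 33, 72], [3, 25, 38], [26]⟩, ⟨[2, 5, 7, 19, 72], [3, 25, 30], [53]⟩,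
  ⟨[2, 3, 4, 5, 33, 72], [25, 38], [3]⟩, ⟨[2, 3, 4, 5, 7, 72], [25, 30], [3]⟩,
  ⟨[1, 2, 3, 4, 5, 6, 46], [38], [25]⟩, ⟨[1, 2, 3, 4, 5, 7, 46], [30], [25]⟩,
  ⟨[2, 3, 4, 5, 7, 72], [25, 30], [2, 10]⟩, ⟨[1, 2, 3, 4, 5, 7, 46], [30], [53]⟩,
  ⟨[1, 2, 3, 4, 5, 7, 46], [30], [1, 10]⟩, ⟨[1, 2, 3, 4, 5, 7, 46], [30], [1, 17]⟩,
  ⟨[1, 2, 3, 4, 5, 7, 46], [30], [25]⟩, ⟨[0, 2, 3, 4, 5, 7, 41], [25], [40]⟩,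
  ⟨[2, 3, 4, 5, 33, 72], [25, 38], [2, 18]⟩]

/-- the pairs with the atom 22 -/
def p22 : List RG.PD := [
  ⟨[0, 16], [1, 2, 4, 5, 6, 7], []⟩, ⟨[1, 15], [0, 2, 4, 5, 6, 7], []⟩,
  ⟨[2, 22], [1, 4, 5, 6, 7, 8], []⟩, ⟨[1, 3, 15], [0, 4, 5, 6, 7], [1]⟩,
  ⟨[4, 29], [0, 1, 2, 5, 6, 7], []⟩, ⟨[5, 22], [0, 1, 2, 6, 7, 28], []⟩,
  ⟨[6, 22], [0, 1, 2, 4, 7, 21], []⟩, ⟨[7, 22], [0, 1, 2, 4, 5, 14], []⟩,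
  ⟨[8, 9], [0, 1, 4, 5, 6, 7], []⟩, ⟨[8, 9], [0, 1, 4, 5, 6, 7], []⟩,
  ⟨[0, 1, 10], [2, 4, 5, 6, 7], [0]⟩, ⟨[1, 3, 4, 23], [0, 5, 6, 7], [1]⟩,
  ⟨[12, 37], [0, 1, 2, 4, 6, 7], []⟩, ⟨[13, 22], [0, 1, 2, 5, 7, 28], []⟩,
  ⟨[14, 22], [0, 1, 2, 4, 6, 21], []⟩, ⟨[1, 15], [0, 2, 4, 5, 6, 7], []⟩,
  ⟨[0, 16], [1, 2, 4, 5, 6, 7], []⟩, ⟨[4, 8, 17], [0, 1, 5, 6, 7], [4]⟩,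
  ⟨[0, 1, 4, 18], [2, 5, 6, 7], [0]⟩, ⟨[1, 3, 12, 30], [0, 4, 6, 7], [1]⟩,
  ⟨[20, 45], [0, 1, 2, 4, 5, 7], []⟩, ⟨[21, 22], [0, 1, 2, 5, 6, 28], []⟩, ⟨[], [], []⟩,
  ⟨[1, 4, 23], [0, 2, 5, 6, 7], [1]⟩, ⟨[0, 4, 24], [1, 2, 5, 6, 7], [0]⟩,
  ⟨[8, 9, 12], [0, 1, 4, 6, 7], [8]⟩, ⟨[0, 1, 10, 12], [2, 4, 6, 7], [0]⟩,
  ⟨[1, 3, 15, 20], [0, 4, 5, 7], [1]⟩, ⟨[22, 28], [0, 1, 2, 4, 5, 6], []⟩,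
  ⟨[4, 29], [0, 1, 2, 5, 6, 7], []⟩, ⟨[1, 12, 30], [0, 2, 4, 6, 7], [1]⟩,
  ⟨[0, 1, 2, 3, 4], [5, 6, 7], [0]⟩, ⟨[0, 12, 32], [1, 2, 4, 6, 7], [0]⟩,
  ⟨[8, 9, 20], [0, 1, 4, 5, 7], [8]⟩, ⟨[0, 1, 10, 20], [2, 4, 5, 7], [0]⟩,
  ⟨[1, 3, 15, 28], [0, 4, 5, 6], [1]⟩, ⟨[1, 3, 4, 23], [0, 5, 6, 7], [9]⟩,
  ⟨[12, 37], [0, 1, 2, 4, 6, 7], []⟩, ⟨[1, 15, 20], [0, 2, 4, 5, 7], [1]⟩,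
  ⟨[0, 1, 2, 3, 12], [4, 6, 7], [0]⟩, ⟨[0, 16, 20], [1, 2, 4, 5, 7], [0]⟩,
  ⟨[8, 9, 28], [0, 1, 4, 5, 6], [8]⟩, ⟨[0, 1, 10, 28], [2, 4, 5, 6], [0]⟩,
  ⟨[0, 1, 4, 18], [2, 5, 6, 7], [15]⟩, ⟨[1, 3, 12, 30], [0, 4, 6, 7], [9]⟩,
  ⟨[20, 45], [0, 1, 2, 4, 5, 7], []⟩, ⟨[1, 15, 28], [0, 2, 4, 5, 6], [1]⟩,
  ⟨[0, 1, 2, 3, 4, 5], [6, 7], [0]⟩, ⟨[0, 1, 2, 3, 20], [4, 5, 7], [0]⟩,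
  ⟨[0, 16, 28], [1, 2, 4, 5, 6], [0]⟩, ⟨[0, 1, 10, 12], [2, 4, 6, 7], [15]⟩,
  ⟨[1, 3, 4, 5, 30], [0, 6, 7], [4]⟩, ⟨[1, 3, 15, 20], [0, 4, 5, 7], [9]⟩,
  ⟨[22, 28], [0, 1, 2, 4, 5, 6], []⟩, ⟨[0, 1, 2, 3, 4, 13], [5, 7], [0]⟩,
  ⟨[0, 1, 2, 3, 28], [4, 5, 6], [0]⟩, ⟨[0, 1, 4, 5, 26], [2, 6, 7], [4]⟩,
  ⟨[0, 1, 10, 20], [2, 4, 5, 7], [15]⟩, ⟨[1, 3, 4, 13, 38], [0, 5, 7], [4]⟩,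
  ⟨[1, 3, 15, 28], [0, 4, 5, 6], [9]⟩, ⟨[0, 1, 2, 3, 6, 20], [4, 7], [0]⟩,
  ⟨[0, 1, 2, 3, 4, 21], [5, 6], [0]⟩, ⟨[0, 1, 2, 3, 4, 5], [6, 7], [0, 3]⟩,
  ⟨[0, 1, 4, 13, 34], [2, 5, 7], [4]⟩, ⟨[0, 1, 10, 28], [2, 4, 5, 6], [15]⟩,
  ⟨[1, 3, 6, 15, 20], [0, 4, 7], [12]⟩, ⟨[1, 3, 4, 21, 46], [0, 5, 6], [4]⟩,
  ⟨[0, 1, 2, 3, 12, 14], [4, 6], [0]⟩, ⟨[0, 1, 2, 3, 4, 5], [6, 7], [9]⟩,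
  ⟨[0, 1, 2, 3, 4, 13], [5, 7], [0, 3]⟩, ⟨[0, 1, 6, 10, 20], [2, 4, 7], [12]⟩,
  ⟨[0, 1, 4, 18, 21], [2, 5, 6], [4]⟩, ⟨[1, 3, 12, 14, 46], [0, 4, 6], [12]⟩,
  ⟨[0, 1, 2, 3, 7, 28], [4, 5], [0]⟩, ⟨[0, 1, 2, 3, 4, 13], [5, 7], [9]⟩,
  ⟨[0, 1, 2, 3, 6, 20], [4, 7], [0, 3]⟩, ⟨[0, 1, 2, 3, 4, 21], [5, 6], [0, 3]⟩,
  ⟨[0, 1, 10, 12, 14], [2, 4, 6], [12]⟩, ⟨[1, 3, 7, 15, 28], [0, 4, 5], [20]⟩,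
  ⟨[0, 1, 2, 3, 6, 20], [4, 7], [9]⟩, ⟨[0, 1, 2, 3, 4, 21], [5, 6], [9]⟩,
  ⟨[0, 1, 2, 3, 4, 5, 6], [7], [4]⟩, ⟨[0, 1, 2, 3, 12, 14], [4, 6], [0, 3]⟩,
  ⟨[0, 1, 7, 10, 28], [2, 4, 5], [20]⟩, ⟨[0, 1, 2, 3, 4, 5, 6], [7], [4]⟩,
  ⟨[0, 1, 2, 3, 12, 14], [4, 6], [9]⟩, ⟨[0, 1, 2, 3, 4, 5, 14], [6], [4]⟩,
  ⟨[0, 1, 2, 3, 7, 28], [4, 5], [0, 3]⟩, ⟨[0, 1, 2, 3, 4, 5, 6], [7], [0, 3]⟩,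
  ⟨[0, 1, 2, 3, 4, 5, 14], [6], [4]⟩, ⟨[0, 1, 2, 3, 7, 28], [4, 5], [9]⟩,
  ⟨[0, 1, 2, 3, 4, 7, 21], [5], [4]⟩, ⟨[0, 1, 2, 3, 4, 5, 6], [7], [0, 10]⟩,
  ⟨[0, 1, 2, 3, 4, 5, 14], [6], [0, 3]⟩, ⟨[0, 1, 2, 3, 4, 7, 21], [5], [4]⟩,
  ⟨[0, 1, 2, 3, 6, 7, 28], [4], [12]⟩, ⟨[0, 1, 2, 3, 4, 5, 6], [7], [45]⟩,
  ⟨[0, 1, 2, 3, 4, 5, 14], [6], [0, 10]⟩, ⟨[0, 1, 2, 3, 4, 7, 21], [5], [0, 3]⟩,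
  ⟨[0, 1, 2, 3, 6, 7, 28], [4], [12]⟩, ⟨[0, 1, 2, 3, 4, 5, 14], [6], [53]⟩,
  ⟨[0, 1, 2, 3, 4, 7, 21], [5], [0, 10]⟩, ⟨[0, 1, 2, 3, 6, 7, 28], [4], [0, 3]⟩,
  ⟨[0, 1, 2, 3, 4, 7, 21], [5], [53]⟩, ⟨[0, 1, 2, 3, 6, 7, 28], [4], [0, 10]⟩,
  ⟨[0, 1, 2, 3, 4, 5, 6, 7], [], [4]⟩, ⟨[0, 1, 2, 3, 6, 7, 28], [4], [53]⟩,
  ⟨[0, 1, 2, 3, 4, 5, 6, 7], [], [4]⟩, ⟨[0, 1, 2, 3, 4, 5, 6, 7], [], [4]⟩,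
  ⟨[0, 1, 2, 3, 4, 5, 6, 7], [], [0, 3]⟩, ⟨[0, 1, 2, 3, 4, 5, 6, 7], [], [0, 3]⟩,
  ⟨[0, 1, 2, 3, 4, 5, 6, 7], [], [0, 17]⟩, ⟨[0, 1, 2, 3, 4, 5, 6, 7], [], [53]⟩,
  ⟨[0, 1, 2, 3, 4, 5, 6, 7], [], [0, 10]⟩, ⟨[0, 1, 2, 3, 4, 5, 6, 7], [], [53]⟩,
  ⟨[0, 1, 2, 3, 4, 5, 6, 7], [], [0, 10]⟩, ⟨[0, 1, 2, 3, 4, 5, 6, 7], [], [0, 17]⟩,
  ⟨[0, 1, 2, 3, 4, 5, 6, 7], [], [0, 18]⟩, ⟨[0, 1, 2, 3, 4, 5, 6, 7], [], [0, 18]⟩,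
  ⟨[0, 1, 2, 3, 4, 5, 6, 7], [], [0, 18]⟩]

/-- the pairs with the atom 27 -/
def p27 : List RG.PD := [
  ⟨[0, 27], [3, 4, 5, 7, 41, 42], []⟩, ⟨[1, 27], [0, 3, 4, 5, 7, 42], []⟩,
  ⟨[2, 27], [3, 4, 5, 7, 41, 46], []⟩, ⟨[3, 20], [0, 4, 5, 7, 41, 42], []⟩,
  ⟨[4, 27], [0, 5, 7, 19, 41, 42], []⟩, ⟨[5, 27], [0, 3, 7, 12, 41, 42], []⟩,
  ⟨[6, 27], [0, 3, 4, 7, 41, 42], []⟩, ⟨[7, 35], [0, 3, 4, 5, 41, 42], []⟩,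
  ⟨[8, 27], [0, 3, 4, 5, 7, 41], []⟩, ⟨[1, 3, 20], [0, 4, 5, 7, 42], [1]⟩,
  ⟨[2, 3, 20], [4, 5, 7, 41, 46], [2]⟩, ⟨[11, 13], [0, 3, 5, 7, 41, 42], []⟩,
  ⟨[12, 27], [0, 4, 7, 19, 41, 42], []⟩, ⟨[11, 13], [0, 3, 5, 7, 41, 42], []⟩,
  ⟨[6, 7, 35], [0, 3, 4, 41, 42], [6]⟩, ⟨[3, 15, 20], [0, 4, 5, 7, 41], [3]⟩,
  ⟨[1, 2, 3, 20], [4, 5, 7, 46], [1]⟩, ⟨[1, 11, 13], [0, 3, 5, 7, 42], [1]⟩,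
  ⟨[2, 11, 13], [3, 5, 7, 41, 46], [2]⟩, ⟨[6, 27], [0, 3, 4, 7, 41, 42], []⟩,
  ⟨[3, 20], [0, 4, 5, 7, 41, 42], []⟩, ⟨[7, 11, 21], [0, 3, 5, 41, 42], [7]⟩,
  ⟨[1, 3, 15, 20], [0, 4, 5, 7], [1]⟩, ⟨[8, 11, 13], [0, 3, 5, 7, 41], [8]⟩,
  ⟨[1, 2, 11, 13], [3, 5, 7, 46], [1]⟩, ⟨[1, 6, 27], [0, 3, 4, 7, 42], [1]⟩,
  ⟨[2, 6, 27], [3, 4, 7, 41, 46], [2]⟩, ⟨[], [], []⟩, ⟨[3, 7, 28], [0, 4, 5, 41, 42], [3]⟩,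
  ⟨[1, 8, 11, 13], [0, 3, 5, 7], [1]⟩, ⟨[6, 8, 27], [0, 3, 4, 7, 41], [6]⟩,
  ⟨[1, 2, 3, 4, 13], [5, 7, 46], [3]⟩, ⟨[1, 2, 6, 27], [3, 4, 7, 46], [1]⟩,
  ⟨[1, 27], [0, 3, 4, 5, 7, 42], []⟩, ⟨[2, 27], [3, 4, 5, 7, 41, 46], []⟩,
  ⟨[7, 35], [0, 3, 4, 5, 41, 42], []⟩, ⟨[1, 3, 4, 13, 38], [0, 5, 7], [3]⟩,
  ⟨[1, 6, 8, 27], [0, 3, 4, 7], [1]⟩, ⟨[8, 27], [0, 3, 4, 5, 7, 41], []⟩,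
  ⟨[1, 2, 3, 6, 20], [4, 7, 46], [3]⟩, ⟨[1, 2, 27], [3, 4, 5, 7, 46], [1]⟩,
  ⟨[27, 41], [0, 3, 4, 5, 33, 42], []⟩, ⟨[27, 42], [3, 4, 5, 34, 41, 46], []⟩,
  ⟨[0, 1, 2, 3, 4, 13], [5, 7], [2]⟩, ⟨[1, 3, 6, 15, 20], [0, 4, 7], [3]⟩,
  ⟨[1, 8, 27], [0, 3, 4, 5, 7], [1]⟩, ⟨[27, 46], [0, 3, 4, 5, 34, 41], []⟩,
  ⟨[1, 2, 5, 6, 27], [3, 7, 46], [6]⟩, ⟨[1, 2, 3, 20], [4, 5, 7, 46], [3]⟩,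
  ⟨[27, 73], [3, 4, 5, 33, 34, 46], []⟩, ⟨[0, 1, 2, 3, 6, 20], [4, 7], [2]⟩,
  ⟨[1, 5, 6, 8, 27], [0, 3, 7], [6]⟩, ⟨[1, 3, 15, 20], [0, 4, 5, 7], [3]⟩,
  ⟨[27, 78], [0, 3, 4, 5, 33, 34], []⟩, ⟨[1, 2, 11, 13], [3, 5, 7, 46], [11]⟩,
  ⟨[3, 20, 73], [4, 5, 33, 34, 46], [3]⟩, ⟨[0, 1, 2, 5, 6, 27], [3, 7], [2]⟩,
  ⟨[0, 1, 2, 3, 20], [4, 5, 7], [2]⟩, ⟨[1, 8, 11, 13], [0, 3, 5, 7], [11]⟩,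
  ⟨[3, 20, 78], [0, 4, 5, 33, 34], [3]⟩, ⟨[1, 2, 6, 27], [3, 4, 7, 46], [19]⟩,
  ⟨[11, 13, 73], [3, 5, 33, 34, 46], [11]⟩, ⟨[0, 1, 2, 3, 4, 5, 6], [7], [3]⟩,
  ⟨[0, 1, 2, 11, 13], [3, 5, 7], [2]⟩, ⟨[2, 3, 20, 78], [4, 5, 33, 38], [2]⟩,
  ⟨[1, 6, 8, 27], [0, 3, 4, 7], [19]⟩, ⟨[11, 13, 78], [0, 3, 5, 33, 34], [11]⟩,
  ⟨[6, 27, 73], [3, 4, 33, 34, 46], [6]⟩, ⟨[0, 1, 2, 3, 4, 5, 6], [7], [6]⟩,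
  ⟨[0, 1, 2, 3, 4, 13], [5, 7], [3]⟩, ⟨[0, 1, 2, 6, 27], [3, 4, 7], [2]⟩,
  ⟨[2, 11, 13, 78], [3, 5, 33, 38], [2]⟩, ⟨[6, 27, 78], [0, 3, 4, 33, 34], [6]⟩,
  ⟨[27, 73], [3, 4, 5, 33, 34, 46], []⟩, ⟨[0, 1, 2, 3, 4, 13], [5, 7], [0, 9]⟩,
  ⟨[0, 1, 2, 3, 6, 20], [4, 7], [3]⟩, ⟨[2, 3, 4, 13, 78], [5, 33, 38], [3]⟩,
  ⟨[2, 6, 27, 78], [3, 4, 33, 38], [2]⟩, ⟨[27, 78], [0, 3, 4, 5, 33, 34], []⟩,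
  ⟨[0, 1, 2, 3, 6, 20], [4, 7], [0, 9]⟩, ⟨[1, 2, 3, 4, 13, 46], [5, 38], [13]⟩,
  ⟨[0, 1, 2, 5, 6, 27], [3, 7], [11]⟩, ⟨[2, 3, 6, 20, 78], [4, 33, 38], [3]⟩,
  ⟨[2, 27, 78], [3, 4, 5, 33, 38], [2]⟩, ⟨[0, 1, 2, 5, 6, 27], [3, 7], [0, 17]⟩,
  ⟨[1, 2, 3, 6, 20, 46], [4, 38], [6]⟩, ⟨[2, 5, 6, 27, 78], [3, 33, 38], [6]⟩,
  ⟨[2, 3, 20, 78], [4, 5, 33, 38], [3]⟩, ⟨[0, 1, 2, 3, 4, 5, 6], [7], [3]⟩,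
  ⟨[1, 2, 5, 6, 27, 46], [3, 38], [6]⟩, ⟨[1, 2, 3, 20, 46], [4, 5, 38], [33]⟩,
  ⟨[2, 11, 13, 78], [3, 5, 33, 38], [11]⟩, ⟨[0, 1, 2, 3, 4, 5, 6], [7], [0, 10]⟩,
  ⟨[1, 2, 3, 4, 5, 6, 46], [38], [3]⟩, ⟨[1, 2, 11, 13, 46], [3, 5, 38], [33]⟩,
  ⟨[2, 6, 27, 78], [3, 4, 33, 38], [19]⟩, ⟨[0, 1, 2, 3, 4, 5, 6], [7], [0, 10]⟩,
  ⟨[1, 2, 3, 4, 5, 6, 46], [38], [6]⟩, ⟨[1, 2, 3, 4, 13, 46], [5, 38], [3]⟩,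
  ⟨[1, 2, 6, 27, 46], [3, 4, 38], [33]⟩, ⟨[0, 1, 2, 3, 4, 5, 6, 7], [], [6]⟩,
  ⟨[1, 2, 3, 4, 13, 46], [5, 38], [1, 10]⟩, ⟨[1, 2, 3, 6, 20, 46], [4, 38], [3]⟩,
  ⟨[0, 1, 2, 3, 4, 7, 21], [5], [38]⟩, ⟨[1, 2, 3, 6, 20, 46], [4, 38], [1, 10]⟩,
  ⟨[1, 2, 5, 6, 27, 46], [3, 38], [11]⟩, ⟨[0, 1, 2, 3, 6, 7, 28], [4], [38]⟩,
  ⟨[1, 2, 5, 6, 27, 46], [3, 38], [1, 18]⟩, ⟨[0, 1, 2, 5, 6, 7, 35], [3], [38]⟩,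
  ⟨[1, 2, 3, 4, 5, 6, 46], [38], [3]⟩, ⟨[0, 1, 2, 3, 4, 5, 6, 7], [], [3]⟩,
  ⟨[1, 2, 3, 4, 5, 6, 46], [38], [1, 17]⟩, ⟨[0, 1, 2, 3, 4, 5, 6, 7], [], [53]⟩,
  ⟨[0, 1, 2, 3, 4, 5, 6, 7], [], [38]⟩, ⟨[0, 1, 2, 3, 4, 5, 6, 7], [], [53]⟩,
  ⟨[0, 1, 2, 3, 4, 5, 6, 7], [], [0, 10]⟩, ⟨[0, 1, 2, 3, 4, 5, 6, 7], [], [0, 17]⟩,
  ⟨[0, 1, 2, 3, 4, 5, 6, 7], [], [0, 18]⟩, ⟨[0, 1, 2, 3, 4, 5, 6, 7], [], [38]⟩,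
  ⟨[1, 2, 3, 4, 5, 6, 46], [38], [1, 18]⟩]

end Pool.Agent.SPH.E8
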