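import Pool.Agent.SPH.E8.Ok
import Pool.Agent.SPH.RG.Aut

/-!
# Project SPH, root germs: the form of type E8 is positive definite
-/

namespace Pool.Agent.SPH.E8

/-- a sum of squares: from the leaves to the branch node `3`, for example for E8
`E v v = (v1 - v3/2)^2 + (v0 - v2/2)^2 + 3/4 (v2 - 2/3 v3)^2 + (v7 - v6/2)^2 + 3/4 (v6 - 2/3 v5)^2
+ 2/3 (v5 - 3/4 v4)^2 + 5/8 (v4 - 4/5 v3)^2 + 1/60 v3^2` (`euF_apply`, `co`) -/
theorem pos (v : Fin rd.n → ℚ) (hv : v ≠ 0) : 0 < rd.eF v v := by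
  have key : ∀ w : Fin 8 → ℚ, w ≠ 0 →
      0 < RG.euF 8 [(0, 2), (2, 3), (1, 3), (3, 4), (4, 5), (5, 6), (6, 7)] w w := by
    intro w hw
    have h : RG.euF 8 [(0, 2), (2, 3), (1, 3), (3, 4), (4, 5), (5, 6), (6, 7)] w w
        = w 0 * w 0 + w 1 * w 1 + w 2 * w 2 + w 3 * w 3 + w 4 * w 4 + w 5 * w 5 + w 6 * w 6
          + w 7 * w 7 - (w 0 * w 2 + (w 2 * w 3 + (w 1 * w 3 + (w 3 * w 4 + (w 4 * w 5
          + (w 5 * w 6 + w 6 * w 7)))))) := by
      rw [RG.euF_apply, Fin.sum_univ_eight]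
      simp [RG.co]
    have hs : RG.euF 8 [(0, 2), (2, 3), (1, 3), (3, 4), (4, 5), (5, 6), (6, 7)] w w
        = (w 1 - w 3 / 2) ^ 2 + (w 0 - w 2 / 2) ^ 2 + 3 / 4 * (w 2 - 2 / 3 * w 3) ^ 2
          + (w 7 - w 6 / 2) ^ 2 + 3 / 4 * (w 6 - 2 / 3 * w 5) ^ 2
          + 2 / 3 * (w 5 - 3 / 4 * w 4) ^ 2 + 5 / 8 * (w 4 - 4 / 5 * w 3) ^ 2
          + 1 / 60 * w 3 ^ 2 := by
      rw [h]; ring
    by_contra hle
    rw [hs] at hle
    have e3 : w 3 = 0 := by
      by_contra h3
      have := pow_pos (abs_pos.mpr h3) 2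
      rw [sq_abs] at this
      apply hle
      positivity
    have z : ∀ x : ℚ, 0 < x ^ 2 ∨ x = 0 := fun x => by
      rcases eq_or_ne x 0 with hx | hx
      · exact Or.inr hx
      · exact Or.inl (by positivity)
    have e1 : w 1 - w 3 / 2 = 0 := (z _).resolve_left fun hx => hle (by positivity)
    have e2 : w 2 - 2 / 3 * w 3 = 0 := (z _).resolve_left fun hx => hle (by positivity)
    have e0 : w 0 - w 2 / 2 = 0 := (z _).resolve_left fun hx => hle (by positivity)
    have e4 : w 4 - 4 / 5 * w 3 = 0 := (z _).resolve_left fun hx => hle (by positivity)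
    have e5 : w 5 - 3 / 4 * w 4 = 0 := (z _).resolve_left fun hx => hle (by positivity)
    have e6 : w 6 - 2 / 3 * w 5 = 0 := (z _).resolve_left fun hx => hle (by positivity)
    have e7 : w 7 - w 6 / 2 = 0 := (z _).resolve_left fun hx => hle (by positivity)
    apply hw
    have f2 : w 2 = 0 := by linarith
    have f0 : w 0 = 0 := by linarith
    have f1 : w 1 = 0 := by linarith
    have f4 : w 4 = 0 := by linarith
    have f5 : w 5 = 0 := by linarith
    have f6 : w 6 = 0 := by linarith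
    have f7 : w 7 = 0 := by linarith
    funext i
    fin_cases i
    · exact f0
    · exact f1
    · exact f2
    · exact e3
    · exact f4
    · exact f5
    · exact f6
    · exact f7
  exact key v hv

theorem au : rd.auB rd.n [] = true := by decide +kernel

theorem rd_ok : rd.Ok where
  hn := by decide
  m_pos := by decide
  ed := ed
  pos := pos
  noaut := RG.RD.noaut_of ed au
  R := kR
  I := kI
  W := kW
  rp := by decide +kernel
  Z := kZ

end Pool.Agent.SPH.E8
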